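import Pool.Agent.Olig.NecG
import Pool.Agent.Olig.Uniq

/-!
# G-compact groups: the monoid closure fails to have reconstruction iff the group does so by a
controlled isomorphism

`ω` is `ℕ` with the discrete topology, `ω^ω` is `ℕ → ℕ` with the product topology.
-/

open Equiv Topology

namespace Pool.Agent.Results.MP_c9589f_lc.GCompactCriterion

/-- The set of functions given by the elements of a permutation group. -/
def funSet (Γ : Subgroup (Perm ℕ)) : Set (ℕ → ℕ) := {f | ∃ g ∈ Γ, f = ⇑g}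

/-- `Γ` is closed in `Sym(ω)` (topology of pointwise convergence). -/
def ClosedInSym (Γ : Subgroup (Perm ℕ)) : Prop :=
  ∀ g : Perm ℕ, (⇑g : ℕ → ℕ) ∈ closure (funSet Γ) → g ∈ Γ

/-- `Γ` is oligomorphic: finitely many orbits on `k`-tuples for every `k`. -/
def Oligomorphic (Γ : Subgroup (Perm ℕ)) : Prop :=
  ∀ k : ℕ, Finite (MulAction.orbitRel.Quotient Γ (Fin k → ℕ))

/-- A permutation as a self-map of `ω`. -/
def toEnd (g : Perm ℕ) : Function.End ℕ := fun x => g x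

/-- The topology of pointwise convergence on a permutation group. -/
@[reducible] def grpTop (Γ : Subgroup (Perm ℕ)) : TopologicalSpace Γ :=
  TopologicalSpace.induced (fun g => (⇑(g : Perm ℕ) : ℕ → ℕ)) Pi.topologicalSpace

/-- The topology of pointwise convergence on a transformation monoid. -/
@[reducible] def monTop (M : Submonoid (Function.End ℕ)) : TopologicalSpace M :=
  TopologicalSpace.induced (fun f => ((f : Function.End ℕ) : ℕ → ℕ)) Pi.topologicalSpace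

/-- Topologically isomorphic permutation groups. -/
def TopIsoGrp (Γ Δ : Subgroup (Perm ℕ)) : Prop :=
  ∃ e : Γ ≃* Δ, @Continuous _ _ (grpTop Γ) (grpTop Δ) e ∧ @Continuous _ _ (grpTop Δ) (grpTop Γ) e.symm

/-- Topologically isomorphic transformation monoids. -/
def TopIsoMon (M N : Submonoid (Function.End ℕ)) : Prop :=
  ∃ e : M ≃* N, @Continuous _ _ (monTop M) (monTop N) e ∧ @Continuous _ _ (monTop N) (monTop M) e.symm

theorem mem_closure_iff_finset {S : Set (ℕ → ℕ)} {f : ℕ → ℕ} :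
    f ∈ closure S ↔ ∀ F : Finset ℕ, ∃ h ∈ S, ∀ x ∈ F, h x = f x := by
  classical
  constructor
  · intro hf F
    have ho : IsOpen {h : ℕ → ℕ | ∀ x ∈ F, h x = f x} := by
      have : {h : ℕ → ℕ | ∀ x ∈ F, h x = f x} = ⋂ x ∈ F, (fun h : ℕ → ℕ => h x) ⁻¹' {f x} := by
        ext h
        simp
      rw [this]
      exact isOpen_biInter_finset fun x _ => (isOpen_discrete _).preimage (continuous_apply x)
    obtain ⟨h, h1, h2⟩ := mem_closure_iff.1 hf _ ho (fun x _ => rfl)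
    exact ⟨h, h2, h1⟩
  · intro hf
    rw [mem_closure_iff]
    intro o ho hfo
    obtain ⟨I, u, hu, hsub⟩ := isOpen_pi_iff.1 ho f hfo
    obtain ⟨h, hS, hh⟩ := hf I
    refine ⟨h, hsub fun x hx => ?_, hS⟩
    rw [hh x hx]
    exact (hu x hx).2

theorem mem_closure_funSet {Γ : Subgroup (Perm ℕ)} {f : ℕ → ℕ} :
    f ∈ closure (funSet Γ) ↔ Olig.Cl Γ f := by
  rw [mem_closure_iff_finset]
  constructor
  · intro h F
    obtain ⟨_, ⟨g, hg, rfl⟩, h1⟩ := h F
    exact ⟨g, hg, h1⟩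
  · intro h F
    obtain ⟨g, hg, h1⟩ := h F
    exact ⟨_, ⟨g, hg, rfl⟩, h1⟩

/-- The monoid closure of `Γ` in `ω^ω`, a submonoid of the monoid of all maps `ω → ω`. -/
def monClosure (Γ : Subgroup (Perm ℕ)) : Submonoid (Function.End ℕ) where
  carrier := {f | (f : ℕ → ℕ) ∈ closure (funSet Γ)}
  one_mem' := show (⇑(1 : Perm ℕ) : ℕ → ℕ) ∈ closure (funSet Γ) from
    subset_closure ⟨1, Γ.one_mem, rfl⟩
  mul_mem' := fun {f h} hf hh => by
    have h1 := mem_closure_funSet.1 hf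
    have h2 := mem_closure_funSet.1 hh
    exact mem_closure_funSet.2 (h1.comp h2)

/-- The group of all permutations `g` such that `g` and its inverse lie in `M`. -/
def autGroup (M : Submonoid (Function.End ℕ)) : Subgroup (Perm ℕ) where
  carrier := {g | toEnd g ∈ M ∧ toEnd g⁻¹ ∈ M}
  one_mem' := ⟨M.one_mem, M.one_mem⟩
  mul_mem' := fun {a b} ha hb => ⟨show toEnd a * toEnd b ∈ M from M.mul_mem ha.1 hb.1, by
    rw [mul_inv_rev]; exact show toEnd b⁻¹ * toEnd a⁻¹ ∈ M from M.mul_mem hb.2 ha.2⟩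
  inv_mem' := fun {a} ha => ⟨ha.2, by rw [inv_inv]; exact ha.1⟩

/-- `M` is the endomorphism monoid of an `ω`-categorical structure with domain `ω`: `M` is closed
in `ω^ω` and the group of its invertible elements is oligomorphic. -/
def IsEndOmegaCategorical (M : Submonoid (Function.End ℕ)) : Prop :=
  IsClosed {f : ℕ → ℕ | (f : Function.End ℕ) ∈ M} ∧ Oligomorphic (autGroup M)

/-- The monoid `M` fails to have reconstruction. -/
def MonFailsReconstruction (M : Submonoid (Function.End ℕ)) : Prop :=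
  ∃ N : Submonoid (Function.End ℕ), IsEndOmegaCategorical N ∧ Nonempty (M ≃* N) ∧ ¬ TopIsoMon M N

/-- `U` is an open subgroup of `Γ`. -/
def IsOpenSubgroup (Γ U : Subgroup (Perm ℕ)) : Prop :=
  U ≤ Γ ∧ IsOpen[grpTop Γ] {g : Γ | (g : Perm ℕ) ∈ U}

/-- The profinite residual of `U`: the intersection of all open normal subgroups of `U`. -/
def residual (U : Subgroup (Perm ℕ)) : Set (Perm ℕ) :=
  {g | ∀ V : Subgroup (Perm ℕ), IsOpenSubgroup U V → (∀ u ∈ U, ∀ v ∈ V, u * v * u⁻¹ ∈ V) → g ∈ V}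

/-- The isomorphism `φ : Γ → Δ` is controlled: for every point `y` there is an open subgroup `U` of
`Γ` such that `φ` maps the residual of `U` into the stabiliser of `y`. -/
def Controlled {Γ Δ : Subgroup (Perm ℕ)} (φ : Γ ≃* Δ) : Prop :=
  ∀ y : ℕ, ∃ U : Subgroup (Perm ℕ), IsOpenSubgroup Γ U ∧
    ∀ g : Γ, (g : Perm ℕ) ∈ residual U → (φ g : Perm ℕ) y = y

/-- The pointwise stabiliser of the finite set `F` in `Γ`. -/
def ptStab (Γ : Subgroup (Perm ℕ)) (F : Finset ℕ) : Subgroup (Perm ℕ) where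
  carrier := {g | g ∈ Γ ∧ ∀ x ∈ F, g x = x}
  one_mem' := ⟨Γ.one_mem, fun _ _ => rfl⟩
  mul_mem' := fun {a b} ha hb => ⟨Γ.mul_mem ha.1 hb.1, fun x hx => by
    rw [Perm.mul_apply, hb.2 x hx, ha.2 x hx]⟩
  inv_mem' := fun {a} ha => ⟨Γ.inv_mem ha.1, fun x hx => by
    rw [Perm.inv_eq_iff_eq, ha.2 x hx]⟩

/-- `g` is at Lascar distance at most `k` from `1` in the permutation group `U`: for some `m` in
the monoid closure of `U` one has `m ∘ g = α₁ ⋯ αₗ ∘ m` with `l ≤ k`, where every `αᵢ` is an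
element of `U` which fixes pointwise the range of some element `n` of the monoid closure of `U`. -/
def LascarClose (U : Subgroup (Perm ℕ)) (k : ℕ) (g : Perm ℕ) : Prop :=
  ∃ m ∈ monClosure U, ∃ l : List (Perm ℕ), l.length ≤ k ∧
    (∀ α ∈ l, α ∈ U ∧ ∃ n ∈ monClosure U, toEnd α * n = n) ∧
    m * toEnd g = toEnd l.prod * m

/-- `Γ` is G-compact over finite sets: for every finite set `F`, the elements of the profinite
residual of the pointwise stabiliser of `F` are at bounded Lascar distance from `1` in it. -/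
def GCompact (Γ : Subgroup (Perm ℕ)) : Prop :=
  ∀ F : Finset ℕ, ∃ k : ℕ, ∀ g ∈ residual (ptStab Γ F), LascarClose (ptStab Γ F) k g

/-- The isomorphism `φ : Γ → Δ` is Lascar controlled: for every point `y` there is a finite set `F`
such that `φ` maps all elements at finite Lascar distance from `1` in the pointwise stabiliser of
`F` into the stabiliser of `y`. -/
def LascarControlled {Γ Δ : Subgroup (Perm ℕ)} (φ : Γ ≃* Δ) : Prop :=
  ∀ y : ℕ, ∃ F : Finset ℕ, ∀ (g : Γ) (k : ℕ), LascarClose (ptStab Γ F) k (g : Perm ℕ) →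
    (φ g : Perm ℕ) y = y

theorem closedG {Γ : Subgroup (Perm ℕ)} (h : ClosedInSym Γ) : Olig.ClosedG Γ :=
  fun g hg => h g (mem_closure_funSet.2 hg)

theorem oligo {Γ : Subgroup (Perm ℕ)} (h : Oligomorphic Γ) : Olig.Oligo Γ := by
  classical
  intro k
  have := h k
  refine ⟨(Set.finite_range (fun q : MulAction.orbitRel.Quotient Γ (Fin k → ℕ) =>
    Quotient.out q)).toFinset, fun x => ?_⟩
  let q : MulAction.orbitRel.Quotient Γ (Fin k → ℕ) := Quotient.mk _ x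
  refine ⟨Quotient.out q, (Set.Finite.mem_toFinset _).2 ⟨q, rfl⟩, ?_⟩
  have h1 : (MulAction.orbitRel Γ (Fin k → ℕ)).r x (Quotient.out q) :=
    Quotient.exact (Quotient.out_eq q).symm
  obtain ⟨g, hg⟩ := h1
  exact ⟨g, g.2, fun i => congrFun hg i⟩

theorem mem_monClosure {Γ : Subgroup (Perm ℕ)} {f : Function.End ℕ} :
    f ∈ monClosure Γ ↔ Olig.Cl Γ f := mem_closure_funSet

theorem cl_autGroup {N : Submonoid (Function.End ℕ)} (hN : IsEndOmegaCategorical N)
    {f : Function.End ℕ} (hf : Olig.Cl (autGroup N) f) : f ∈ N := by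
  have h1 : closure (funSet (autGroup N)) ⊆ {f : ℕ → ℕ | (f : Function.End ℕ) ∈ N} := by
    refine closure_minimal ?_ hN.1
    rintro _ ⟨g, hg, rfl⟩
    exact hg.1
  exact h1 (mem_closure_funSet.2 hf)

theorem closedG_autGroup {N : Submonoid (Function.End ℕ)} (hN : IsEndOmegaCategorical N) :
    Olig.ClosedG (autGroup N) := by
  classical
  intro g hg
  refine ⟨cl_autGroup hN hg, cl_autGroup hN ?_⟩
  intro F
  obtain ⟨d, hd, h1⟩ := hg (F.image ⇑g⁻¹)
  refine ⟨d⁻¹, (autGroup N).inv_mem hd, fun x hx => ?_⟩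
  rw [Perm.inv_eq_iff_eq, toEnd, h1 _ (Finset.mem_image_of_mem _ hx), Olig.ai]

/-- an element with an inverse is given by a permutation -/
theorem exists_perm {M : Submonoid (Function.End ℕ)} (a b : M) (h1 : a * b = 1) (h2 : b * a = 1) :
    ∃ p ∈ autGroup M, toEnd p = (a : Function.End ℕ) := by
  let p : Perm ℕ := ⟨(a.1 : ℕ → ℕ), (b.1 : ℕ → ℕ),
    fun x => congrFun (congrArg Subtype.val h2) x, fun x => congrFun (congrArg Subtype.val h1) x⟩
  exact ⟨p, ⟨a.2, b.2⟩, rfl⟩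

theorem autGroup_monClosure {Γ : Subgroup (Perm ℕ)} (hc : ClosedInSym Γ) :
    autGroup (monClosure Γ) = Γ := by
  ext g
  constructor
  · intro h
    exact hc g h.1
  · intro h
    exact ⟨mem_monClosure.2 (Olig.Cl.of_mem h), mem_monClosure.2 (Olig.Cl.of_mem (Γ.inv_mem h))⟩

/-- units are mapped to units -/
theorem map_unit {M N : Submonoid (Function.End ℕ)} (Φ : M ≃* N) {g : Perm ℕ}
    (hg : g ∈ autGroup M) : ∃ p ∈ autGroup N, toEnd p = (Φ ⟨toEnd g, hg.1⟩ : Function.End ℕ) := by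
  have e1 : (⟨toEnd g, hg.1⟩ : M) * ⟨toEnd g⁻¹, hg.2⟩ = 1 :=
    Subtype.ext (funext fun x => Olig.ai g x)
  have e2 : (⟨toEnd g⁻¹, hg.2⟩ : M) * ⟨toEnd g, hg.1⟩ = 1 :=
    Subtype.ext (funext fun x => Olig.ia g x)
  exact exists_perm (Φ ⟨toEnd g, hg.1⟩) (Φ ⟨toEnd g⁻¹, hg.2⟩)
    (by rw [← map_mul, e1, map_one]) (by rw [← map_mul, e2, map_one])

open Classical in
/-- a map between submonoids as a map on functions -/
noncomputable def lift {M N : Submonoid (Function.End ℕ)} (Φ : M → N) (f : ℕ → ℕ) : ℕ → ℕ :=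
  if hf : (f : Function.End ℕ) ∈ M then (Φ ⟨f, hf⟩ : Function.End ℕ) else f

theorem lift_eq {M N : Submonoid (Function.End ℕ)} (Φ : M → N) {f : ℕ → ℕ}
    (hf : (f : Function.End ℕ) ∈ M) : lift Φ f = (Φ ⟨f, hf⟩ : Function.End ℕ) := dif_pos hf

theorem clIso {Γ : Subgroup (Perm ℕ)} (hc : ClosedInSym Γ) (ho : Oligomorphic Γ)
    {N : Submonoid (Function.End ℕ)} (hN : IsEndOmegaCategorical N) (Φ : monClosure Γ ≃* N) :
    Olig.ClIso Γ (autGroup N) (fun f => (f : Function.End ℕ) ∈ N) (lift Φ) (lift Φ.symm) where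
  cG := closedG hc
  oG := oligo ho
  cD := closedG_autGroup hN
  oD := oligo hN.2
  clN := fun f hf => cl_autGroup hN hf
  compN := fun f f' hf hf' => N.mul_mem hf hf'
  memP := fun f hf => by
    rw [lift_eq _ (mem_monClosure.2 hf)]
    exact (Φ _).2
  memR := fun f hf => by
    rw [lift_eq _ hf]
    exact mem_monClosure.1 (Φ.symm _).2
  mulP := fun f f' hf hf' => by
    rw [lift_eq _ (mem_monClosure.2 hf), lift_eq _ (mem_monClosure.2 hf'),
      lift_eq _ (mem_monClosure.2 (hf.comp hf'))]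
    have h1 := map_mul Φ ⟨f, mem_monClosure.2 hf⟩ ⟨f', mem_monClosure.2 hf'⟩
    exact congrArg Subtype.val h1
  mulR := fun f f' hf hf' => by
    have hff : (f ∘ f' : Function.End ℕ) ∈ N := N.mul_mem hf hf'
    rw [lift_eq _ hf, lift_eq _ hf', lift_eq _ hff]
    have h1 := map_mul Φ.symm ⟨f, hf⟩ ⟨f', hf'⟩
    exact congrArg Subtype.val h1
  RP := fun f hf => by
    rw [lift_eq Φ (mem_monClosure.2 hf), lift_eq Φ.symm (Φ _).2]
    exact congrArg Subtype.val (Φ.symm_apply_apply ⟨f, mem_monClosure.2 hf⟩)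
  PR := fun f hf => by
    rw [lift_eq Φ.symm hf, lift_eq Φ (Φ.symm _).2]
    exact congrArg Subtype.val (Φ.apply_symm_apply ⟨f, hf⟩)
  idP := by
    rw [lift_eq Φ (mem_monClosure.2 (Olig.Cl.id' Γ))]
    exact congrArg Subtype.val (map_one Φ)
  gP := fun g hg => by
    have hg' : g ∈ autGroup (monClosure Γ) := by rw [autGroup_monClosure hc]; exact hg
    obtain ⟨p, hp, e⟩ := map_unit Φ hg'
    exact ⟨p, hp, (lift_eq Φ hg'.1).trans e.symm⟩
  dR := fun d hd => by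
    obtain ⟨p, hp, e⟩ := map_unit Φ.symm hd
    rw [autGroup_monClosure hc] at hp
    exact ⟨p, hp, (lift_eq Φ.symm hd.1).trans e.symm⟩

theorem isOpenSubgroup_iff {Γ U : Subgroup (Perm ℕ)} : IsOpenSubgroup Γ U ↔ Olig.OpenIn Γ U := by
  constructor
  · rintro ⟨hle, ho⟩
    refine ⟨hle, ?_⟩
    obtain ⟨t, ht, hts⟩ := (@isOpen_induced_iff _ _ Pi.topologicalSpace _ _).1 ho
    have h1 : (⇑(1 : Perm ℕ) : ℕ → ℕ) ∈ t := by
      have h2 : (1 : Γ) ∈ (fun g : Γ => (⇑(g : Perm ℕ) : ℕ → ℕ)) ⁻¹' t := by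
        rw [hts]
        exact U.one_mem
      exact h2
    obtain ⟨I, u, hu, hsub⟩ := isOpen_pi_iff.1 ht _ h1
    refine ⟨I, fun g hg h => ?_⟩
    have h3 : (⟨g, hg⟩ : Γ) ∈ (fun g : Γ => (⇑(g : Perm ℕ) : ℕ → ℕ)) ⁻¹' t := by
      refine hsub fun x hx => ?_
      have h4 := (hu x hx).2
      change g x ∈ u x
      rw [h x hx]
      exact h4
    rw [hts] at h3
    exact h3
  · rintro ⟨hle, A, hA⟩
    refine ⟨hle, (@isOpen_induced_iff _ _ Pi.topologicalSpace _ _).2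
      ⟨⋃ v ∈ U, {f : ℕ → ℕ | ∀ x ∈ A, f x = v x}, ?_, ?_⟩⟩
    · refine isOpen_biUnion fun v _ => ?_
      have : {f : ℕ → ℕ | ∀ x ∈ A, f x = v x} = ⋂ x ∈ A, (fun h : ℕ → ℕ => h x) ⁻¹' {v x} := by
        ext h
        simp
      rw [this]
      exact isOpen_biInter_finset fun x _ => (isOpen_discrete _).preimage (continuous_apply x)
    · ext g
      simp only [Set.mem_preimage, Set.mem_iUnion, Set.mem_ofPred_eq]
      constructor
      · rintro ⟨v, hv, h⟩
        have h1 : v⁻¹ * (g : Perm ℕ) ∈ U := hA _ (Γ.mul_mem (Γ.inv_mem (hle hv)) g.2) (fun x hx => by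
          rw [Perm.mul_apply, Perm.inv_eq_iff_eq]; exact (h x hx))
        have := U.mul_mem hv h1
        rwa [mul_inv_cancel_left] at this
      · intro hg
        exact ⟨g, hg, fun _ _ => rfl⟩

theorem mem_residual {U : Subgroup (Perm ℕ)} {g : Perm ℕ} (h : g ∈ Olig.Res U) :
    g ∈ residual U :=
  fun _ hV hn => Olig.mem_Res.1 h _ ⟨isOpenSubgroup_iff.1 hV, hn⟩

theorem ctrl {Γ Δ : Subgroup (Perm ℕ)} {φ : Γ ≃* Δ} (h : Controlled φ) :
    Olig.Ctrl φ.toMonoidHom := by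
  intro y
  obtain ⟨U, hU, h1⟩ := h y
  exact ⟨U, isOpenSubgroup_iff.1 hU, fun g hg => h1 g (mem_residual hg)⟩

/-- the isomorphism of the closures -/
theorem monClosure_iso {Γ Δ : Subgroup (Perm ℕ)} (hc : ClosedInSym Γ) (ho : Oligomorphic Γ)
    (hc' : ClosedInSym Δ) (ho' : Oligomorphic Δ) (φ : Γ ≃* Δ) (h1 : Controlled φ)
    (h2 : Controlled φ.symm) : Nonempty (monClosure Γ ≃* monClosure Δ) := by
  obtain ⟨E, E', e1, e2, e3, e4, e5, _⟩ := Olig.exists_iso (closedG hc) (oligo ho) (closedG hc')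
    (oligo ho') φ (ctrl h1) (ctrl h2)
  exact ⟨
    { toFun := fun f => ⟨E f.1, mem_monClosure.2 (e1 _ (mem_monClosure.1 f.2))⟩
      invFun := fun f => ⟨E' f.1, mem_monClosure.2 (e2 _ (mem_monClosure.1 f.2))⟩
      left_inv := fun f => Subtype.ext (e4 _ (mem_monClosure.1 f.2))
      right_inv := fun f => Subtype.ext (e5 _ (mem_monClosure.1 f.2))
      map_mul' := fun f f' => Subtype.ext
        (e3 _ _ (mem_monClosure.1 f.2) (mem_monClosure.1 f'.2)) }⟩

theorem isEnd_monClosure {Δ : Subgroup (Perm ℕ)} (hc : ClosedInSym Δ) (ho : Oligomorphic Δ) :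
    IsEndOmegaCategorical (monClosure Δ) :=
  ⟨(isClosed_closure : IsClosed (closure (funSet Δ))), by rw [autGroup_monClosure hc]; exact ho⟩

/-- the inclusion of `Γ` in its closure -/
def inc {Γ : Subgroup (Perm ℕ)} (g : Γ) : monClosure Γ :=
  ⟨toEnd g, mem_monClosure.2 (Olig.Cl.of_mem g.2)⟩

theorem inc_mul {Γ : Subgroup (Perm ℕ)} (g h : Γ) : inc (g * h) = inc g * inc h := rfl

theorem inc_one {Γ : Subgroup (Perm ℕ)} : inc (1 : Γ) = 1 := rfl

theorem continuous_inc (Γ : Subgroup (Perm ℕ)) :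
    @Continuous _ _ (grpTop Γ) (monTop (monClosure Γ)) inc := by
  refine continuous_induced_rng.2 ?_
  exact continuous_induced_dom

theorem val_continuous (M : Submonoid (Function.End ℕ)) :
    @Continuous _ _ (monTop M) Pi.topologicalSpace
      (fun f : M => ((f : Function.End ℕ) : ℕ → ℕ)) := continuous_induced_dom

/-- an isomorphism of the closures restricts to the groups -/
theorem exists_restrict {Γ Δ : Subgroup (Perm ℕ)} (hc' : ClosedInSym Δ)
    (e : monClosure Γ ≃* monClosure Δ) (g : Γ) : ∃ d : Δ, inc d = e (inc g) := by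
  have h1 : e (inc g) * e (inc g⁻¹) = 1 := by
    rw [← map_mul, ← inc_mul, mul_inv_cancel, inc_one, map_one]
  have h2 : e (inc g⁻¹) * e (inc g) = 1 := by
    rw [← map_mul, ← inc_mul, inv_mul_cancel, inc_one, map_one]
  let p : Perm ℕ := ⟨((e (inc g)).1 : ℕ → ℕ), ((e (inc g⁻¹)).1 : ℕ → ℕ),
    fun x => congrFun (congrArg Subtype.val h2) x, fun x => congrFun (congrArg Subtype.val h1) x⟩
  have hp : p ∈ Δ := hc' p (e (inc g)).2
  exact ⟨⟨p, hp⟩, rfl⟩

theorem inc_injective {Γ : Subgroup (Perm ℕ)} : Function.Injective (inc : Γ → monClosure Γ) := by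
  intro g h hgh
  exact Subtype.ext (DFunLike.coe_injective (congrArg Subtype.val hgh))

theorem topIsoGrp_of_topIsoMon {Γ Δ : Subgroup (Perm ℕ)} (hc : ClosedInSym Γ)
    (hc' : ClosedInSym Δ) (h : TopIsoMon (monClosure Γ) (monClosure Δ)) : TopIsoGrp Γ Δ := by
  obtain ⟨e, he, he'⟩ := h
  choose r hr using exists_restrict hc' e
  choose r' hr' using exists_restrict hc e.symm
  refine ⟨{ toFun := r
            invFun := r'
            left_inv := fun g => inc_injective (by rw [hr', hr, e.symm_apply_apply])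
            right_inv := fun g => inc_injective (by rw [hr, hr', e.apply_symm_apply])
            map_mul' := fun g h => inc_injective (by
              rw [hr, inc_mul, map_mul, inc_mul, hr, hr]) }, ?_, ?_⟩
  · refine continuous_induced_rng.2 ?_
    have h1 := @Continuous.comp _ _ _ (grpTop Γ) (monTop _) (monTop _) _ _ he (continuous_inc Γ)
    have h2 := @Continuous.comp _ _ _ (grpTop Γ) (monTop _) Pi.topologicalSpace _ _
      (val_continuous (monClosure Δ)) h1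
    refine (@continuous_congr _ _ (grpTop Γ) Pi.topologicalSpace _ _ (fun g => ?_)).1 h2
    exact (congrArg Subtype.val (hr g)).symm
  · refine continuous_induced_rng.2 ?_
    have h1 := @Continuous.comp _ _ _ (grpTop Δ) (monTop _) (monTop _) _ _ he' (continuous_inc Δ)
    have h2 := @Continuous.comp _ _ _ (grpTop Δ) (monTop _) Pi.topologicalSpace _ _
      (val_continuous (monClosure Γ)) h1
    refine (@continuous_congr _ _ (grpTop Δ) Pi.topologicalSpace _ _ (fun g => ?_)).1 h2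
    exact (congrArg Subtype.val (hr' g)).symm

/-- a continuous homomorphism between permutation groups, with finite sets -/
theorem exists_fin_of_continuous {Γ Δ : Subgroup (Perm ℕ)} (e : Γ ≃* Δ)
    (he : @Continuous _ _ (grpTop Γ) (grpTop Δ) e) (y : ℕ) :
    ∃ F : Finset ℕ, ∀ g : Γ, (∀ x ∈ F, (g : Perm ℕ) x = x) → (e g : Perm ℕ) y = y := by
  have h1 : @Continuous _ _ (grpTop Γ) Pi.topologicalSpace
      (fun g : Γ => (⇑(e g : Perm ℕ) : ℕ → ℕ)) :=
    @Continuous.comp _ _ _ (grpTop Γ) (grpTop Δ) Pi.topologicalSpace _ _ continuous_induced_dom he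
  have h2 : @Continuous _ _ (grpTop Γ) _ (fun g : Γ => (e g : Perm ℕ) y) :=
    @Continuous.comp _ _ _ (grpTop Γ) Pi.topologicalSpace _ _ _ (continuous_apply y) h1
  have h3 := (continuous_def.1 h2) {y} (isOpen_discrete _)
  obtain ⟨t, ht, hts⟩ := (@isOpen_induced_iff _ _ Pi.topologicalSpace _ _).1 h3
  have h4 : (⇑(1 : Perm ℕ) : ℕ → ℕ) ∈ t := by
    have h5 : (1 : Γ) ∈ (fun g : Γ => (⇑(g : Perm ℕ) : ℕ → ℕ)) ⁻¹' t := by
      rw [hts]
      simp
    exact h5
  obtain ⟨I, u, hu, hsub⟩ := isOpen_pi_iff.1 ht _ h4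
  refine ⟨I, fun g hg => ?_⟩
  have h5 : g ∈ (fun g : Γ => (⇑(g : Perm ℕ) : ℕ → ℕ)) ⁻¹' t := by
    refine hsub fun x hx => ?_
    have h6 := (hu x hx).2
    change (g : Perm ℕ) x ∈ u x
    rw [hg x hx]
    exact h6
  rw [hts] at h5
  exact h5

theorem continuous_of_fin {Γ Δ : Subgroup (Perm ℕ)} (e : Γ ≃* Δ)
    (h : ∀ y, ∃ F : Finset ℕ, ∀ g : Γ, (∀ x ∈ F, (g : Perm ℕ) x = x) → (e g : Perm ℕ) y = y) :
    @Continuous _ _ (grpTop Γ) (grpTop Δ) e := by
  let _ : TopologicalSpace Γ := grpTop Γ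
  refine continuous_induced_rng.2 ?_
  refine continuous_pi fun y => ?_
  rw [continuous_def]
  intro o _
  obtain ⟨F, hF⟩ := h y
  rw [isOpen_iff_forall_mem_open]
  intro g0 hg0
  have h1 : IsOpen {f : ℕ → ℕ | ∀ x ∈ F, f x = (g0 : Perm ℕ) x} := by
    have : {f : ℕ → ℕ | ∀ x ∈ F, f x = (g0 : Perm ℕ) x} =
        ⋂ x ∈ F, (fun f : ℕ → ℕ => f x) ⁻¹' {(g0 : Perm ℕ) x} := by
      ext f
      simp
    rw [this]
    exact isOpen_biInter_finset fun x _ => (isOpen_discrete _).preimage (continuous_apply x)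
  refine ⟨(fun g : Γ => (⇑(g : Perm ℕ) : ℕ → ℕ)) ⁻¹' {f | ∀ x ∈ F, f x = (g0 : Perm ℕ) x},
    ?_, h1.preimage continuous_induced_dom, fun _ _ => rfl⟩
  intro g hg
  have h2 := hF (g0⁻¹ * g) (fun x hx => by
    have h3 : ((g0⁻¹ * g : Γ) : Perm ℕ) x = (g0 : Perm ℕ)⁻¹ ((g : Perm ℕ) x) := rfl
    have h4 : (g : Perm ℕ) x = (g0 : Perm ℕ) x := hg x hx
    rw [h3, h4, Olig.ia])
  rw [map_mul, map_inv] at h2
  have h5 : (((e g0)⁻¹ * e g : Δ) : Perm ℕ) y = (e g0 : Perm ℕ)⁻¹ ((e g : Perm ℕ) y) := rfl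
  rw [h5, Perm.inv_eq_iff_eq] at h2
  change (e g : Perm ℕ) y ∈ o
  rw [h2]
  exact hg0

/-- the continuous extension to the closures -/
theorem exists_cont_ext {Γ Δ : Subgroup (Perm ℕ)} (e : Γ ≃* Δ)
    (h : ∀ y, ∃ F : Finset ℕ, ∀ g : Γ, (∀ x ∈ F, (g : Perm ℕ) x = x) → (e g : Perm ℕ) y = y) :
    ∃ (E : (ℕ → ℕ) → (ℕ → ℕ)) (K : ℕ → Finset ℕ), ∀ (f : ℕ → ℕ) (g : Γ) (y : ℕ), Olig.Cl Γ f →
      (∀ x ∈ K y, (g : Perm ℕ) x = f x) → E f y = (e g : Perm ℕ) y := by
  classical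
  choose K hK using h
  refine ⟨fun f y => if hf : ∃ g : Γ, ∀ x ∈ K y, (g : Perm ℕ) x = f x then
    (e hf.choose : Perm ℕ) y else 0, K, fun f g y _ hg => ?_⟩
  have hf : ∃ g : Γ, ∀ x ∈ K y, (g : Perm ℕ) x = f x := ⟨g, hg⟩
  have e0 : (if hf : ∃ g : Γ, ∀ x ∈ K y, (g : Perm ℕ) x = f x then
    (e hf.choose : Perm ℕ) y else 0) = (e hf.choose : Perm ℕ) y := dif_pos hf
  change (if hf : ∃ g : Γ, ∀ x ∈ K y, (g : Perm ℕ) x = f x then
    (e hf.choose : Perm ℕ) y else 0) = _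
  rw [e0]
  have h1 := hK y (g⁻¹ * hf.choose) (fun x hx => by
    have h3 : ((g⁻¹ * hf.choose : Γ) : Perm ℕ) x = (g : Perm ℕ)⁻¹ ((hf.choose : Perm ℕ) x) := rfl
    rw [h3, hf.choose_spec x hx, Perm.inv_eq_iff_eq, hg x hx])
  rw [map_mul, map_inv] at h1
  have h5 : (((e g)⁻¹ * e hf.choose : Δ) : Perm ℕ) y =
    (e g : Perm ℕ)⁻¹ ((e hf.choose : Perm ℕ) y) := rfl
  rw [h5, Perm.inv_eq_iff_eq] at h1
  exact h1

/-- a topological isomorphism of the groups extends to the closures -/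
theorem topIsoMon_of_topIsoGrp {Γ Δ : Subgroup (Perm ℕ)} (h : TopIsoGrp Γ Δ) :
    TopIsoMon (monClosure Γ) (monClosure Δ) := by
  classical
  obtain ⟨e, he, he'⟩ := h
  obtain ⟨E, K, hE⟩ := exists_cont_ext e (exists_fin_of_continuous e he)
  obtain ⟨E', K', hE'⟩ := exists_cont_ext e.symm (exists_fin_of_continuous e.symm he')
  -- general facts
  have hcl : ∀ {Γ Δ : Subgroup (Perm ℕ)} (e : Γ ≃* Δ) (E : (ℕ → ℕ) → (ℕ → ℕ)) (K : ℕ → Finset ℕ),
      (∀ (f : ℕ → ℕ) (g : Γ) (y : ℕ), Olig.Cl Γ f → (∀ x ∈ K y, (g : Perm ℕ) x = f x) →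
        E f y = (e g : Perm ℕ) y) → ∀ f, Olig.Cl Γ f → ∀ F : Finset ℕ, ∃ g : Γ,
          (∀ x ∈ F, (g : Perm ℕ) x = f x) ∧ ∀ y ∈ F, (e g : Perm ℕ) y = E f y := by
    intro Γ Δ e E K hE f hf F
    obtain ⟨g, hg, h1⟩ := hf (F ∪ F.biUnion K)
    refine ⟨⟨g, hg⟩, fun x hx => h1 x (Finset.mem_union_left _ hx), fun y hy => ?_⟩
    exact (hE f ⟨g, hg⟩ y hf fun x hx => h1 x (Finset.mem_union_right _
      (Finset.mem_biUnion.2 ⟨y, hy, hx⟩))).symm
  have hclE : ∀ f, Olig.Cl Γ f → Olig.Cl Δ (E f) := by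
    intro f hf F
    obtain ⟨g, _, h2⟩ := hcl e E K hE f hf F
    exact ⟨e g, (e g).2, h2⟩
  have hclE' : ∀ f, Olig.Cl Δ f → Olig.Cl Γ (E' f) := by
    intro f hf F
    obtain ⟨g, _, h2⟩ := hcl e.symm E' K' hE' f hf F
    exact ⟨e.symm g, (e.symm g).2, h2⟩
  have hmul : ∀ f f', Olig.Cl Γ f → Olig.Cl Γ f' → E (f ∘ f') = E f ∘ E f' := by
    intro f f' hf hf'
    funext y
    obtain ⟨g', h1, h2⟩ := hcl e E K hE f' hf' (insert y (K y))
    have e2 := h2 y (Finset.mem_insert_self _ _)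
    obtain ⟨g, h3, h4⟩ := hcl e E K hE f hf (insert (E f' y) ((K y).image f'))
    have e4 := h4 _ (Finset.mem_insert_self _ _)
    have h5 := hE (f ∘ f') (g * g') y (hf.comp hf') (fun x hx => by
      have h6 : ((g * g' : Γ) : Perm ℕ) x = (g : Perm ℕ) ((g' : Perm ℕ) x) := rfl
      rw [h6, h1 x (Finset.mem_insert_of_mem hx),
        h3 _ (Finset.mem_insert_of_mem (Finset.mem_image_of_mem _ hx))]
      rfl)
    rw [h5, map_mul, Function.comp_apply, ← e4, ← e2]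
    rfl
  have hinv : ∀ {Γ Δ : Subgroup (Perm ℕ)} (e : Γ ≃* Δ) (E E' : (ℕ → ℕ) → (ℕ → ℕ))
      (K K' : ℕ → Finset ℕ),
      (∀ (f : ℕ → ℕ) (g : Γ) (y : ℕ), Olig.Cl Γ f → (∀ x ∈ K y, (g : Perm ℕ) x = f x) →
        E f y = (e g : Perm ℕ) y) →
      (∀ (f : ℕ → ℕ) (g : Δ) (y : ℕ), Olig.Cl Δ f → (∀ x ∈ K' y, (g : Perm ℕ) x = f x) →
        E' f y = (e.symm g : Perm ℕ) y) → (∀ f, Olig.Cl Γ f → Olig.Cl Δ (E f)) →
      ∀ f, Olig.Cl Γ f → E' (E f) = f := by
    intro Γ Δ e E E' K K' hE hE' hclE f hf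
    funext x
    obtain ⟨g, hg, h1⟩ := hf (insert x ((K' x).biUnion K))
    have h2 : ∀ y ∈ K' x, (e ⟨g, hg⟩ : Perm ℕ) y = E f y := fun y hy =>
      (hE f ⟨g, hg⟩ y hf fun z hz => h1 z (Finset.mem_insert_of_mem
        (Finset.mem_biUnion.2 ⟨y, hy, hz⟩))).symm
    rw [hE' (E f) (e ⟨g, hg⟩) x (hclE f hf) h2, e.symm_apply_apply]
    exact h1 x (Finset.mem_insert_self _ _)
  have hcont : ∀ {Γ Δ : Subgroup (Perm ℕ)} (e : Γ ≃* Δ) (E : (ℕ → ℕ) → (ℕ → ℕ))
      (K : ℕ → Finset ℕ),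
      (∀ (f : ℕ → ℕ) (g : Γ) (y : ℕ), Olig.Cl Γ f → (∀ x ∈ K y, (g : Perm ℕ) x = f x) →
        E f y = (e g : Perm ℕ) y) →
      @Continuous (monClosure Γ) (ℕ → ℕ) (monTop (monClosure Γ)) Pi.topologicalSpace
        (fun f => E f.1) := by
    intro Γ Δ e E K hE
    let _ : TopologicalSpace (monClosure Γ) := monTop (monClosure Γ)
    refine continuous_pi fun y => ?_
    rw [continuous_def]
    intro o _
    rw [isOpen_iff_forall_mem_open]
    intro s hs
    have h1 : IsOpen {f : ℕ → ℕ | ∀ x ∈ K y, f x = (s : Function.End ℕ) x} := by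
      have : {f : ℕ → ℕ | ∀ x ∈ K y, f x = (s : Function.End ℕ) x} =
          ⋂ x ∈ K y, (fun f : ℕ → ℕ => f x) ⁻¹' {(s : Function.End ℕ) x} := by
        ext f
        simp
      rw [this]
      exact isOpen_biInter_finset fun x _ => (isOpen_discrete _).preimage (continuous_apply x)
    refine ⟨(fun f : monClosure Γ => ((f : Function.End ℕ) : ℕ → ℕ)) ⁻¹'
      {f | ∀ x ∈ K y, f x = (s : Function.End ℕ) x}, ?_,
      h1.preimage (val_continuous (monClosure Γ)), fun _ _ => rfl⟩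
    intro s' hs'
    obtain ⟨g, hg, h2⟩ := mem_monClosure.1 s.2 (K y)
    have e1 := hE s.1 ⟨g, hg⟩ y (mem_monClosure.1 s.2) h2
    have e2 := hE s'.1 ⟨g, hg⟩ y (mem_monClosure.1 s'.2) (fun x hx => by
      have h3 : (s'.1 : ℕ → ℕ) x = (s.1 : ℕ → ℕ) x := hs' x hx
      rw [h3]
      exact h2 x hx)
    change E s'.1 y ∈ o
    rw [e2, ← e1]
    exact hs
  refine ⟨
    { toFun := fun f => ⟨E f.1, mem_monClosure.2 (hclE _ (mem_monClosure.1 f.2))⟩
      invFun := fun f => ⟨E' f.1, mem_monClosure.2 (hclE' _ (mem_monClosure.1 f.2))⟩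
      left_inv := fun f => Subtype.ext (hinv e E E' K K' hE hE' hclE f.1 (mem_monClosure.1 f.2))
      right_inv := fun f => Subtype.ext (hinv e.symm E' E K' K hE' hE hclE' f.1
        (mem_monClosure.1 f.2))
      map_mul' := fun f f' => Subtype.ext
        (hmul _ _ (mem_monClosure.1 f.2) (mem_monClosure.1 f'.2)) }, ?_, ?_⟩
  · exact continuous_induced_rng.2 (hcont e E K hE)
  · exact continuous_induced_rng.2 (hcont e.symm E' K' hE')

theorem ptStab_eq (Γ : Subgroup (Perm ℕ)) (F : Finset ℕ) : ptStab Γ F = Olig.stb Γ F := rfl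

theorem isOpen_ptStab (Γ : Subgroup (Perm ℕ)) (F : Finset ℕ) : IsOpenSubgroup Γ (ptStab Γ F) :=
  isOpenSubgroup_iff.2 (Olig.stb_open Γ F)

theorem mem_Res {U : Subgroup (Perm ℕ)} {g : Perm ℕ} (h : g ∈ residual U) : g ∈ Olig.Res U :=
  Olig.mem_Res.2 fun V hV => h V (isOpenSubgroup_iff.2 hV.toOpenIn) hV.nm

/-- a list as a function on `Fin k` -/
theorem exists_fn (p : Perm ℕ → Prop) (h1 : p 1) : ∀ (k : ℕ) (l : List (Perm ℕ)),
    l.length ≤ k → (∀ α ∈ l, p α) →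
    ∃ α : Fin k → Perm ℕ, (∀ j, p (α j)) ∧ (List.ofFn α).prod = l.prod := by
  intro k
  induction k with
  | zero =>
    intro l hl _
    have : l = [] := List.eq_nil_of_length_eq_zero (Nat.le_zero.1 hl)
    subst this
    exact ⟨fun j => 1, fun _ => h1, by simp⟩
  | succ k ih =>
    intro l hl hp
    cases l with
    | nil =>
      obtain ⟨α, h2, h3⟩ := ih [] (Nat.zero_le _) (by simp)
      refine ⟨Fin.cons 1 α, fun j => ?_, ?_⟩
      · refine Fin.cases ?_ (fun i => ?_) j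
        · exact h1
        · exact h2 i
      · rw [List.ofFn_cons, List.prod_cons, one_mul, h3]
    | cons a l =>
      obtain ⟨α, h2, h3⟩ := ih l (Nat.le_of_succ_le_succ hl)
        (fun α hα => hp α (List.mem_cons_of_mem _ hα))
      refine ⟨Fin.cons a α, fun j => ?_, ?_⟩
      · refine Fin.cases ?_ (fun i => ?_) j
        · exact hp a List.mem_cons_self
        · exact h2 i
      · rw [List.ofFn_cons, List.prod_cons, List.prod_cons, h3]

theorem lk_of_close {U : Subgroup (Perm ℕ)} {k : ℕ} {g : Perm ℕ} (h : LascarClose U k g) :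
    Olig.Lk U k g := by
  obtain ⟨m, hm, l, hl, hα, e⟩ := h
  obtain ⟨α, h1, h2⟩ := exists_fn (Olig.D1 U) (Olig.D1.one U) k l hl (fun α h => by
    obtain ⟨h1, n, hn, e⟩ := hα α h
    exact ⟨h1, n, mem_monClosure.1 hn, e⟩)
  refine ⟨m, mem_monClosure.1 hm, α, h1, ?_⟩
  rw [h2]
  exact e

/-- the isomorphism of the unit groups -/
theorem exists_phi {Γ Δ : Subgroup (Perm ℕ)} {N : (ℕ → ℕ) → Prop} {P R : (ℕ → ℕ) → (ℕ → ℕ)}
    (h : Olig.ClIso Γ Δ N P R) : ∃ φ : Γ ≃* Δ, (∀ g : Γ, P ⇑(g : Perm ℕ) = ⇑(φ g : Perm ℕ)) ∧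
      ∀ d : Δ, R ⇑(d : Perm ℕ) = ⇑(φ.symm d : Perm ℕ) := by
  choose p hp e using fun g : Γ => h.gP (g : Perm ℕ) g.2
  choose r hr e' using fun d : Δ => h.dR (d : Perm ℕ) d.2
  refine ⟨
    { toFun := fun g => ⟨p g, hp g⟩
      invFun := fun d => ⟨r d, hr d⟩
      left_inv := fun g => Subtype.ext (DFunLike.coe_injective ?_)
      right_inv := fun d => Subtype.ext (DFunLike.coe_injective ?_)
      map_mul' := fun g g' => Subtype.ext (DFunLike.coe_injective ?_) }, fun g => e g,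
    fun d => e' d⟩
  · have h1 := e' ⟨p g, hp g⟩
    change R ⇑(p g) = _ at h1
    rw [← e g, h.RP _ (Olig.Cl.of_mem g.2)] at h1
    exact h1.symm
  · have h1 := e ⟨r d, hr d⟩
    change P ⇑(r d) = _ at h1
    rw [← e' d, h.PR _ (h.Nd d.2)] at h1
    exact h1.symm
  · have h1 := h.mulP _ _ (Olig.Cl.of_mem g.2) (Olig.Cl.of_mem g'.2)
    rw [e g, e g'] at h1
    exact (e (g * g')).symm.trans h1

theorem lascarControlled {Γ Δ : Subgroup (Perm ℕ)} {N : (ℕ → ℕ) → Prop}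
    {P R : (ℕ → ℕ) → (ℕ → ℕ)} (h : Olig.ClIso Γ Δ N P R) (φ : Γ ≃* Δ)
    (hφ : ∀ g : Γ, P ⇑(g : Perm ℕ) = ⇑(φ g : Perm ℕ)) : LascarControlled φ := by
  intro y
  obtain ⟨K, F, hyK, hKF⟩ := h.exists_supS {y}
  refine ⟨F, fun g k hg => ?_⟩
  have h1 := h.fix_Lk hKF g.2 (lk_of_close hg) (hyK (Finset.mem_singleton_self y))
  rw [hφ g] at h1
  exact h1

/-- Let `Γ` be a closed oligomorphic permutation group. If the monoid closure of `Γ` fails to have
reconstruction then there are a closed oligomorphic group `Δ`, not topologically isomorphic to `Γ`,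
and an isomorphism `φ` from `Γ` onto `Δ` such that `φ` and its inverse are Lascar controlled. If
`Γ` is G-compact over finite sets, then the monoid closure of `Γ` fails to have reconstruction if
and only if there are such `Δ` and `φ` for which `φ` and its inverse are controlled. -/
theorem result (Γ : Subgroup (Perm ℕ)) (hc : ClosedInSym Γ) (ho : Oligomorphic Γ) :
    (MonFailsReconstruction (monClosure Γ) →
      ∃ (Δ : Subgroup (Perm ℕ)) (φ : Γ ≃* Δ), ClosedInSym Δ ∧ Oligomorphic Δ ∧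
        ¬ TopIsoGrp Γ Δ ∧ LascarControlled φ ∧ LascarControlled φ.symm) ∧
    (GCompact Γ → (MonFailsReconstruction (monClosure Γ) ↔
      ∃ (Δ : Subgroup (Perm ℕ)) (φ : Γ ≃* Δ), ClosedInSym Δ ∧ Oligomorphic Δ ∧
        ¬ TopIsoGrp Γ Δ ∧ Controlled φ ∧ Controlled φ.symm)) := by
  have main : MonFailsReconstruction (monClosure Γ) →
      ∃ (Δ : Subgroup (Perm ℕ)) (φ : Γ ≃* Δ) (N : (ℕ → ℕ) → Prop) (P R : (ℕ → ℕ) → (ℕ → ℕ)),
        ClosedInSym Δ ∧ Oligomorphic Δ ∧ ¬ TopIsoGrp Γ Δ ∧ Olig.ClIso Γ Δ N P R ∧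
        (∀ g : Γ, P ⇑(g : Perm ℕ) = ⇑(φ g : Perm ℕ)) ∧
        ∀ d : Δ, R ⇑(d : Perm ℕ) = ⇑(φ.symm d : Perm ℕ) := by
    rintro ⟨N, hN, ⟨Φ⟩, hn⟩
    have hcl := clIso hc ho hN Φ
    have hN2 : N = monClosure (autGroup N) := by
      ext f
      constructor
      · intro hf
        exact mem_monClosure.2 (hcl.cl_of_N hf)
      · intro hf
        exact cl_autGroup hN (mem_monClosure.1 hf)
    have hc' : ClosedInSym (autGroup N) := fun g hg =>
      closedG_autGroup hN g (mem_closure_funSet.1 hg)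
    obtain ⟨φ, h1, h2⟩ := exists_phi hcl
    refine ⟨autGroup N, φ, _, _, _, hc', hN.2, fun h => hn ?_, hcl, h1, h2⟩
    have h3 := topIsoMon_of_topIsoGrp h
    rw [← hN2] at h3
    exact h3
  refine ⟨fun hM => ?_, fun hG => ⟨fun hM => ?_, ?_⟩⟩
  · obtain ⟨Δ, φ, N, P, R, hc', ho', hn, hcl, h1, h2⟩ := main hM
    exact ⟨Δ, φ, hc', ho', hn, lascarControlled hcl φ h1, lascarControlled hcl.symm φ.symm h2⟩
  · obtain ⟨Δ, φ, N, P, R, hc', ho', hn, hcl, h1, h2⟩ := main hM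
    have hgc : ∀ F : Finset ℕ, ∃ k, ∀ g ∈ Olig.Res (Olig.stb Γ F), Olig.Lk (Olig.stb Γ F) k g := by
      intro F
      obtain ⟨k, hk⟩ := hG F
      exact ⟨k, fun g hg => lk_of_close (hk g (mem_residual hg))⟩
    refine ⟨Δ, φ, hc', ho', hn, fun y => ?_, fun x => ?_⟩
    · obtain ⟨F, hF⟩ := hcl.ctrlP hgc y
      refine ⟨ptStab Γ F, isOpen_ptStab Γ F, fun g hg => ?_⟩
      have h3 := hF g (mem_Res hg)
      rw [h1 g] at h3
      exact h3
    · obtain ⟨Y, hY⟩ := hcl.ctrlR hgc x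
      refine ⟨ptStab Δ Y, isOpen_ptStab Δ Y, fun d hd => ?_⟩
      have h3 := hY d (mem_Res hd)
      rw [h2 d] at h3
      exact h3
  · rintro ⟨Δ, φ, hc', ho', hn, h1, h2⟩
    exact ⟨monClosure Δ, isEnd_monClosure hc' ho', monClosure_iso hc ho hc' ho' φ h1 h2,
      fun h => hn (topIsoGrp_of_topIsoMon hc hc' h)⟩

end Pool.Agent.Results.MP_c9589f_lc.GCompactCriterion
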