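import Pool.Agent.Olig.NecD

/-!
# Isomorphisms from the closure of an oligomorphic group onto an endomorphism monoid

`ω` is `ℕ` with the discrete topology, `ω^ω` is `ℕ → ℕ` with the product topology.
-/

open Equiv Topology

namespace Pool.Agent.Results.MP_c9589f_lc.ModuloCompact

/-- The set of functions given by the elements of a permutation group. -/
def funSet (Γ : Subgroup (Perm ℕ)) : Set (ℕ → ℕ) := {f | ∃ g ∈ Γ, f = ⇑g}

/-- `Γ` is closed in `Sym(ω)` (topology of pointwise convergence). -/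
def ClosedInSym (Γ : Subgroup (Perm ℕ)) : Prop :=
  ∀ g : Perm ℕ, (⇑g : ℕ → ℕ) ∈ closure (funSet Γ) → g ∈ Γ

/-- `Γ` is oligomorphic: finitely many orbits on `k`-tuples for every `k`. -/
def Oligomorphic (Γ : Subgroup (Perm ℕ)) : Prop :=
  ∀ k : ℕ, Finite (MulAction.orbitRel.Quotient Γ (Fin k → ℕ))

/-- A permutation as a self-map of `ω`. -/
def toEnd (g : Perm ℕ) : Function.End ℕ := fun x => g x

/-- The topology of pointwise convergence on a permutation group. -/
@[reducible] def grpTop (Γ : Subgroup (Perm ℕ)) : TopologicalSpace Γ :=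
  TopologicalSpace.induced (fun g => (⇑(g : Perm ℕ) : ℕ → ℕ)) Pi.topologicalSpace

/-- The topology of pointwise convergence on a transformation monoid. -/
@[reducible] def monTop (M : Submonoid (Function.End ℕ)) : TopologicalSpace M :=
  TopologicalSpace.induced (fun f => ((f : Function.End ℕ) : ℕ → ℕ)) Pi.topologicalSpace

theorem mem_closure_iff_finset {S : Set (ℕ → ℕ)} {f : ℕ → ℕ} :
    f ∈ closure S ↔ ∀ F : Finset ℕ, ∃ h ∈ S, ∀ x ∈ F, h x = f x := by
  classical
  constructor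
  · intro hf F
    have ho : IsOpen {h : ℕ → ℕ | ∀ x ∈ F, h x = f x} := by
      have : {h : ℕ → ℕ | ∀ x ∈ F, h x = f x} = ⋂ x ∈ F, (fun h : ℕ → ℕ => h x) ⁻¹' {f x} := by
        ext h
        simp
      rw [this]
      exact isOpen_biInter_finset fun x _ => (isOpen_discrete _).preimage (continuous_apply x)
    obtain ⟨h, h1, h2⟩ := mem_closure_iff.1 hf _ ho (fun x _ => rfl)
    exact ⟨h, h2, h1⟩
  · intro hf
    rw [mem_closure_iff]
    intro o ho hfo
    obtain ⟨I, u, hu, hsub⟩ := isOpen_pi_iff.1 ho f hfo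
    obtain ⟨h, hS, hh⟩ := hf I
    refine ⟨h, hsub fun x hx => ?_, hS⟩
    rw [hh x hx]
    exact (hu x hx).2

theorem mem_closure_funSet {Γ : Subgroup (Perm ℕ)} {f : ℕ → ℕ} :
    f ∈ closure (funSet Γ) ↔ Olig.Cl Γ f := by
  rw [mem_closure_iff_finset]
  constructor
  · intro h F
    obtain ⟨_, ⟨g, hg, rfl⟩, h1⟩ := h F
    exact ⟨g, hg, h1⟩
  · intro h F
    obtain ⟨g, hg, h1⟩ := h F
    exact ⟨_, ⟨g, hg, rfl⟩, h1⟩

/-- The monoid closure of `Γ` in `ω^ω`, a submonoid of the monoid of all maps `ω → ω`. -/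
def monClosure (Γ : Subgroup (Perm ℕ)) : Submonoid (Function.End ℕ) where
  carrier := {f | (f : ℕ → ℕ) ∈ closure (funSet Γ)}
  one_mem' := show (⇑(1 : Perm ℕ) : ℕ → ℕ) ∈ closure (funSet Γ) from
    subset_closure ⟨1, Γ.one_mem, rfl⟩
  mul_mem' := fun {f h} hf hh => by
    have h1 := mem_closure_funSet.1 hf
    have h2 := mem_closure_funSet.1 hh
    exact mem_closure_funSet.2 (h1.comp h2)

/-- The group of all permutations `g` such that `g` and its inverse lie in `M`. -/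
def autGroup (M : Submonoid (Function.End ℕ)) : Subgroup (Perm ℕ) where
  carrier := {g | toEnd g ∈ M ∧ toEnd g⁻¹ ∈ M}
  one_mem' := ⟨M.one_mem, M.one_mem⟩
  mul_mem' := fun {a b} ha hb => ⟨show toEnd a * toEnd b ∈ M from M.mul_mem ha.1 hb.1, by
    rw [mul_inv_rev]; exact show toEnd b⁻¹ * toEnd a⁻¹ ∈ M from M.mul_mem hb.2 ha.2⟩
  inv_mem' := fun {a} ha => ⟨ha.2, by rw [inv_inv]; exact ha.1⟩

/-- `M` is the endomorphism monoid of an `ω`-categorical structure with domain `ω`: `M` is closed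
in `ω^ω` and the group of its invertible elements is oligomorphic. -/
def IsEndOmegaCategorical (M : Submonoid (Function.End ℕ)) : Prop :=
  IsClosed {f : ℕ → ℕ | (f : Function.End ℕ) ∈ M} ∧ Oligomorphic (autGroup M)

/-- `T` is a compact normal subgroup of `Γ` (the topology is that of pointwise convergence). -/
def CompactNormal (Γ T : Subgroup (Perm ℕ)) : Prop :=
  T ≤ Γ ∧ (∀ g ∈ Γ, ∀ t ∈ T, g * t * g⁻¹ ∈ T) ∧ IsCompact (funSet T)

/-- The map `Φ : M → N` is (uniformly) continuous modulo the permutation group `S`, that is, the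
map from `M` to the space `N / S` of the cosets `t ∘ S` is: for every finite set `Y` there is a
finite set `F` such that, whenever `s` and `s'` in `M` agree on `F`, there is a `σ` in `S` such
that `Φ s'` and `Φ s ∘ σ` agree on `Y`. -/
def ContinuousModulo {M N : Submonoid (Function.End ℕ)} (Φ : M → N) (S : Subgroup (Perm ℕ)) :
    Prop :=
  ∀ Y : Finset ℕ, ∃ F : Finset ℕ, ∀ s s' : M,
    (∀ x ∈ F, (s : Function.End ℕ) x = (s' : Function.End ℕ) x) →
    ∃ σ ∈ S, ∀ y ∈ Y, (Φ s' : Function.End ℕ) y = (Φ s : Function.End ℕ) (σ y)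

/-- `U` is an open subgroup of `Γ`. -/
def IsOpenSubgroup (Γ U : Subgroup (Perm ℕ)) : Prop :=
  U ≤ Γ ∧ IsOpen[grpTop Γ] {g : Γ | (g : Perm ℕ) ∈ U}

/-- Obstruction to continuity for the compact normal subgroup `T` of `Γ`: an open subgroup `U` of
`Γ` containing `T` and a normal subgroup `H` of `U`, of finite index in `U` and not open, such that
`U = H T` and such that `H` contains all elements of `U` which fix pointwise the range of some
element of the monoid closure of `U`. -/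
def Obstruction (Γ T : Subgroup (Perm ℕ)) : Prop :=
  ∃ U H : Subgroup (Perm ℕ), IsOpenSubgroup Γ U ∧ T ≤ U ∧ H ≤ U ∧
    (∀ u ∈ U, ∀ x ∈ H, u * x * u⁻¹ ∈ H) ∧ (H.subgroupOf U).FiniteIndex ∧
    ¬ IsOpenSubgroup Γ H ∧ (∀ u ∈ U, ∃ x ∈ H, ∃ t ∈ T, u = x * t) ∧
    ∀ u ∈ U, ∀ n ∈ monClosure U, toEnd u * n = n → u ∈ H

theorem closedG {Γ : Subgroup (Perm ℕ)} (h : ClosedInSym Γ) : Olig.ClosedG Γ :=
  fun g hg => h g (mem_closure_funSet.2 hg)

theorem oligo {Γ : Subgroup (Perm ℕ)} (h : Oligomorphic Γ) : Olig.Oligo Γ := by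
  classical
  intro k
  have := h k
  refine ⟨(Set.finite_range (fun q : MulAction.orbitRel.Quotient Γ (Fin k → ℕ) =>
    Quotient.out q)).toFinset, fun x => ?_⟩
  let q : MulAction.orbitRel.Quotient Γ (Fin k → ℕ) := Quotient.mk _ x
  refine ⟨Quotient.out q, (Set.Finite.mem_toFinset _).2 ⟨q, rfl⟩, ?_⟩
  have h1 : (MulAction.orbitRel Γ (Fin k → ℕ)).r x (Quotient.out q) :=
    Quotient.exact (Quotient.out_eq q).symm
  obtain ⟨g, hg⟩ := h1
  exact ⟨g, g.2, fun i => congrFun hg i⟩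

theorem mem_monClosure {Γ : Subgroup (Perm ℕ)} {f : Function.End ℕ} :
    f ∈ monClosure Γ ↔ Olig.Cl Γ f := mem_closure_funSet

theorem cl_autGroup {N : Submonoid (Function.End ℕ)} (hN : IsEndOmegaCategorical N)
    {f : Function.End ℕ} (hf : Olig.Cl (autGroup N) f) : f ∈ N := by
  have h1 : closure (funSet (autGroup N)) ⊆ {f : ℕ → ℕ | (f : Function.End ℕ) ∈ N} := by
    refine closure_minimal ?_ hN.1
    rintro _ ⟨g, hg, rfl⟩
    exact hg.1
  exact h1 (mem_closure_funSet.2 hf)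

theorem closedG_autGroup {N : Submonoid (Function.End ℕ)} (hN : IsEndOmegaCategorical N) :
    Olig.ClosedG (autGroup N) := by
  classical
  intro g hg
  refine ⟨cl_autGroup hN hg, cl_autGroup hN ?_⟩
  intro F
  obtain ⟨d, hd, h1⟩ := hg (F.image ⇑g⁻¹)
  refine ⟨d⁻¹, (autGroup N).inv_mem hd, fun x hx => ?_⟩
  rw [Perm.inv_eq_iff_eq, toEnd, h1 _ (Finset.mem_image_of_mem _ hx), Olig.ai]

/-- an element with an inverse is given by a permutation -/
theorem exists_perm {M : Submonoid (Function.End ℕ)} (a b : M) (h1 : a * b = 1) (h2 : b * a = 1) :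
    ∃ p ∈ autGroup M, toEnd p = (a : Function.End ℕ) := by
  let p : Perm ℕ := ⟨(a.1 : ℕ → ℕ), (b.1 : ℕ → ℕ),
    fun x => congrFun (congrArg Subtype.val h2) x, fun x => congrFun (congrArg Subtype.val h1) x⟩
  exact ⟨p, ⟨a.2, b.2⟩, rfl⟩

theorem autGroup_monClosure {Γ : Subgroup (Perm ℕ)} (hc : ClosedInSym Γ) :
    autGroup (monClosure Γ) = Γ := by
  ext g
  constructor
  · intro h
    exact hc g h.1
  · intro h
    exact ⟨mem_monClosure.2 (Olig.Cl.of_mem h), mem_monClosure.2 (Olig.Cl.of_mem (Γ.inv_mem h))⟩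

/-- units are mapped to units -/
theorem map_unit {M N : Submonoid (Function.End ℕ)} (Φ : M ≃* N) {g : Perm ℕ}
    (hg : g ∈ autGroup M) : ∃ p ∈ autGroup N, toEnd p = (Φ ⟨toEnd g, hg.1⟩ : Function.End ℕ) := by
  have e1 : (⟨toEnd g, hg.1⟩ : M) * ⟨toEnd g⁻¹, hg.2⟩ = 1 :=
    Subtype.ext (funext fun x => Olig.ai g x)
  have e2 : (⟨toEnd g⁻¹, hg.2⟩ : M) * ⟨toEnd g, hg.1⟩ = 1 :=
    Subtype.ext (funext fun x => Olig.ia g x)
  exact exists_perm (Φ ⟨toEnd g, hg.1⟩) (Φ ⟨toEnd g⁻¹, hg.2⟩)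
    (by rw [← map_mul, e1, map_one]) (by rw [← map_mul, e2, map_one])

open Classical in
/-- a map between submonoids as a map on functions -/
noncomputable def lift {M N : Submonoid (Function.End ℕ)} (Φ : M → N) (f : ℕ → ℕ) : ℕ → ℕ :=
  if hf : (f : Function.End ℕ) ∈ M then (Φ ⟨f, hf⟩ : Function.End ℕ) else f

theorem lift_eq {M N : Submonoid (Function.End ℕ)} (Φ : M → N) {f : ℕ → ℕ}
    (hf : (f : Function.End ℕ) ∈ M) : lift Φ f = (Φ ⟨f, hf⟩ : Function.End ℕ) := dif_pos hf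

theorem clIso {Γ : Subgroup (Perm ℕ)} (hc : ClosedInSym Γ) (ho : Oligomorphic Γ)
    {N : Submonoid (Function.End ℕ)} (hN : IsEndOmegaCategorical N) (Φ : monClosure Γ ≃* N) :
    Olig.ClIso Γ (autGroup N) (fun f => (f : Function.End ℕ) ∈ N) (lift Φ) (lift Φ.symm) where
  cG := closedG hc
  oG := oligo ho
  cD := closedG_autGroup hN
  oD := oligo hN.2
  clN := fun f hf => cl_autGroup hN hf
  compN := fun f f' hf hf' => N.mul_mem hf hf'
  memP := fun f hf => by
    rw [lift_eq _ (mem_monClosure.2 hf)]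
    exact (Φ _).2
  memR := fun f hf => by
    rw [lift_eq _ hf]
    exact mem_monClosure.1 (Φ.symm _).2
  mulP := fun f f' hf hf' => by
    rw [lift_eq _ (mem_monClosure.2 hf), lift_eq _ (mem_monClosure.2 hf'),
      lift_eq _ (mem_monClosure.2 (hf.comp hf'))]
    have h1 := map_mul Φ ⟨f, mem_monClosure.2 hf⟩ ⟨f', mem_monClosure.2 hf'⟩
    exact congrArg Subtype.val h1
  mulR := fun f f' hf hf' => by
    have hff : (f ∘ f' : Function.End ℕ) ∈ N := N.mul_mem hf hf'
    rw [lift_eq _ hf, lift_eq _ hf', lift_eq _ hff]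
    have h1 := map_mul Φ.symm ⟨f, hf⟩ ⟨f', hf'⟩
    exact congrArg Subtype.val h1
  RP := fun f hf => by
    rw [lift_eq Φ (mem_monClosure.2 hf), lift_eq Φ.symm (Φ _).2]
    exact congrArg Subtype.val (Φ.symm_apply_apply ⟨f, mem_monClosure.2 hf⟩)
  PR := fun f hf => by
    rw [lift_eq Φ.symm hf, lift_eq Φ (Φ.symm _).2]
    exact congrArg Subtype.val (Φ.apply_symm_apply ⟨f, hf⟩)
  idP := by
    rw [lift_eq Φ (mem_monClosure.2 (Olig.Cl.id' Γ))]
    exact congrArg Subtype.val (map_one Φ)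
  gP := fun g hg => by
    have hg' : g ∈ autGroup (monClosure Γ) := by rw [autGroup_monClosure hc]; exact hg
    obtain ⟨p, hp, e⟩ := map_unit Φ hg'
    exact ⟨p, hp, (lift_eq Φ hg'.1).trans e.symm⟩
  dR := fun d hd => by
    obtain ⟨p, hp, e⟩ := map_unit Φ.symm hd
    rw [autGroup_monClosure hc] at hp
    exact ⟨p, hp, (lift_eq Φ.symm hd.1).trans e.symm⟩

theorem compactNormal {G D : Subgroup (Perm ℕ)} {N : (ℕ → ℕ) → Prop}
    {P R : (ℕ → ℕ) → (ℕ → ℕ)} (h : Olig.ClIso G D N P R) : CompactNormal D h.SSg := by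
  classical
  refine ⟨h.SSg_le, fun g hg t ht => h.SSg_normal hg ht, ?_⟩
  choose Z hZ using h.SSg_orbit
  have hK : IsCompact (Set.pi Set.univ fun c => (Z c : Set ℕ)) :=
    isCompact_univ_pi fun c => (Z c).finite_toSet.isCompact
  refine hK.of_isClosed_subset ?_ ?_
  · refine isClosed_of_closure_subset fun f hf => ?_
    obtain ⟨d, hd, e⟩ := h.SSg_cl (mem_closure_funSet.1 hf)
    exact ⟨d, hd, e⟩
  · rintro _ ⟨d, hd, rfl⟩ c _
    exact hZ c d hd

/-- continuity modulo the trivial group -/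
theorem continuous_of_bot {M N : Submonoid (Function.End ℕ)} {Φ : M → N}
    (h : ContinuousModulo Φ ⊥) : @Continuous _ _ (monTop M) (monTop N) Φ := by
  let _ : TopologicalSpace M := monTop M
  let _ : TopologicalSpace N := monTop N
  have key : @Continuous M (ℕ → ℕ) (monTop M) Pi.topologicalSpace
      (fun s => ((Φ s : Function.End ℕ) : ℕ → ℕ)) := ?_
  · exact continuous_induced_rng.2 key
  refine @continuous_pi M ℕ (fun _ => ℕ) _ _ _ (fun y => ?_)
  rw [continuous_def]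
  intro o _
  obtain ⟨F, hF⟩ := h {y}
  rw [isOpen_iff_forall_mem_open]
  intro s hs
  have h1 : IsOpen {f : ℕ → ℕ | ∀ x ∈ F, f x = (s : Function.End ℕ) x} := by
    have : {f : ℕ → ℕ | ∀ x ∈ F, f x = (s : Function.End ℕ) x} =
        ⋂ x ∈ F, (fun f : ℕ → ℕ => f x) ⁻¹' {(s : Function.End ℕ) x} := by
      ext f
      simp
    rw [this]
    exact isOpen_biInter_finset fun x _ => (isOpen_discrete _).preimage (continuous_apply x)
  have h2 : IsOpen ((fun f : M => ((f : Function.End ℕ) : ℕ → ℕ)) ⁻¹'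
      {f : ℕ → ℕ | ∀ x ∈ F, f x = (s : Function.End ℕ) x}) :=
    (@isOpen_induced_iff M (ℕ → ℕ) Pi.topologicalSpace _ _).2 ⟨_, h1, rfl⟩
  refine ⟨_, ?_, h2, fun _ _ => rfl⟩
  intro s' hs'
  obtain ⟨σ, hσ, h2⟩ := hF s s' (fun x hx => (hs' x hx).symm)
  rw [Subgroup.mem_bot] at hσ
  have h3 := h2 y (by simp)
  rw [hσ] at h3
  change (Φ s' : Function.End ℕ) y ∈ o
  rw [h3]
  exact hs

theorem isOpenSubgroup_iff {Γ U : Subgroup (Perm ℕ)} : IsOpenSubgroup Γ U ↔ Olig.OpenIn Γ U := by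
  constructor
  · rintro ⟨hle, ho⟩
    refine ⟨hle, ?_⟩
    obtain ⟨t, ht, hts⟩ := (@isOpen_induced_iff _ _ Pi.topologicalSpace _ _).1 ho
    have h1 : (⇑(1 : Perm ℕ) : ℕ → ℕ) ∈ t := by
      have h2 : (1 : Γ) ∈ (fun g : Γ => (⇑(g : Perm ℕ) : ℕ → ℕ)) ⁻¹' t := by
        rw [hts]
        exact U.one_mem
      exact h2
    obtain ⟨I, u, hu, hsub⟩ := isOpen_pi_iff.1 ht _ h1
    refine ⟨I, fun g hg h => ?_⟩
    have h3 : (⟨g, hg⟩ : Γ) ∈ (fun g : Γ => (⇑(g : Perm ℕ) : ℕ → ℕ)) ⁻¹' t := by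
      refine hsub fun x hx => ?_
      have h4 := (hu x hx).2
      change g x ∈ u x
      rw [h x hx]
      exact h4
    rw [hts] at h3
    exact h3
  · rintro ⟨hle, A, hA⟩
    refine ⟨hle, (@isOpen_induced_iff _ _ Pi.topologicalSpace _ _).2
      ⟨⋃ v ∈ U, {f : ℕ → ℕ | ∀ x ∈ A, f x = v x}, ?_, ?_⟩⟩
    · refine isOpen_biUnion fun v _ => ?_
      have : {f : ℕ → ℕ | ∀ x ∈ A, f x = v x} = ⋂ x ∈ A, (fun h : ℕ → ℕ => h x) ⁻¹' {v x} := by
        ext h
        simp
      rw [this]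
      exact isOpen_biInter_finset fun x _ => (isOpen_discrete _).preimage (continuous_apply x)
    · ext g
      simp only [Set.mem_preimage, Set.mem_iUnion, Set.mem_ofPred_eq]
      constructor
      · rintro ⟨v, hv, h⟩
        have h1 : v⁻¹ * (g : Perm ℕ) ∈ U := hA _ (Γ.mul_mem (Γ.inv_mem (hle hv)) g.2) (fun x hx => by
          rw [Perm.mul_apply, Perm.inv_eq_iff_eq]; exact (h x hx))
        have := U.mul_mem hv h1
        rwa [mul_inv_cancel_left] at this
      · intro hg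
        exact ⟨g, hg, fun _ _ => rfl⟩

theorem not_obstruction_bot {Γ T : Subgroup (Perm ℕ)} (hT : T = ⊥) : ¬ Obstruction Γ T := by
  rintro ⟨U, H, h1, _, h3, _, _, h6, h7, _⟩
  apply h6
  have : H = U := by
    refine le_antisymm h3 (fun u hu => ?_)
    obtain ⟨x, hx, t, ht, rfl⟩ := h7 u hu
    rw [hT, Subgroup.mem_bot] at ht
    rw [ht, mul_one]
    exact hx
  rw [this]
  exact h1

/-- Let `Γ` be a closed oligomorphic permutation group on `ω`, `N` the endomorphism monoid of an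
`ω`-categorical structure, and `Φ` an isomorphism of abstract monoids from the monoid closure of
`Γ` onto `N`. Then `N` is the monoid closure of the group of its invertible elements, and `Φ` is
a homeomorphism modulo compact normal subgroups `T`, `S` of the two unit groups, which correspond
under `Φ`. If `Φ` is not a homeomorphism then there is an obstruction for `T`. In particular `Φ`
is a homeomorphism if `Γ` has no nontrivial compact normal subgroup, or if all subgroups of finite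
index of open subgroups of `Γ` are open. -/
theorem result (Γ : Subgroup (Perm ℕ)) (hc : ClosedInSym Γ) (ho : Oligomorphic Γ)
    (N : Submonoid (Function.End ℕ)) (hN : IsEndOmegaCategorical N) (Φ : monClosure Γ ≃* N) :
    N = monClosure (autGroup N) ∧
    (∃ T S : Subgroup (Perm ℕ), CompactNormal Γ T ∧ CompactNormal (autGroup N) S ∧
      (∀ s : monClosure Γ, (∃ t ∈ T, toEnd t = (s : Function.End ℕ)) ↔
        ∃ u ∈ S, toEnd u = (Φ s : Function.End ℕ)) ∧
      ContinuousModulo Φ S ∧ ContinuousModulo Φ.symm T ∧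
      ((@Continuous _ _ (monTop (monClosure Γ)) (monTop N) Φ ∧
        @Continuous _ _ (monTop N) (monTop (monClosure Γ)) Φ.symm) ∨ Obstruction Γ T)) ∧
    ((∀ T : Subgroup (Perm ℕ), CompactNormal Γ T → T = ⊥) ∨
      (∀ U H : Subgroup (Perm ℕ), IsOpenSubgroup Γ U → H ≤ U → (H.subgroupOf U).FiniteIndex →
        IsOpenSubgroup Γ H) →
      @Continuous _ _ (monTop (monClosure Γ)) (monTop N) Φ ∧
      @Continuous _ _ (monTop N) (monTop (monClosure Γ)) Φ.symm) := by
  classical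
  have h := clIso hc ho hN Φ
  have hcorr : ∀ s : monClosure Γ, (∃ t ∈ h.symm.SSg, toEnd t = (s : Function.End ℕ)) ↔
      ∃ u ∈ h.SSg, toEnd u = (Φ s : Function.End ℕ) := by
    intro s
    constructor
    · rintro ⟨t, ht, e⟩
      have htΓ : t ∈ Γ := h.symm.SSg_le ht
      obtain ⟨d, hd, hPd⟩ := h.gP t htΓ
      refine ⟨d, (h.mem_SS_iff htΓ hPd).1 ht, ?_⟩
      have hm : toEnd t ∈ monClosure Γ := mem_monClosure.2 (Olig.Cl.of_mem htΓ)
      have e2 : (⟨toEnd t, hm⟩ : monClosure Γ) = s := Subtype.ext e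
      have e3 : lift Φ ⇑t = (Φ ⟨toEnd t, hm⟩ : Function.End ℕ) := lift_eq Φ hm
      rw [e2] at e3
      rw [← e3, hPd]
      rfl
    · rintro ⟨u, hu, e⟩
      have huD : u ∈ autGroup N := h.SSg_le hu
      obtain ⟨g, hg, hRg⟩ := h.dR u huD
      have hPg : lift Φ ⇑g = ⇑u := by rw [← hRg, h.PR _ (h.Nd huD)]
      refine ⟨g, (h.mem_SS_iff hg hPg).2 hu, ?_⟩
      have hm : toEnd u ∈ N := huD.1
      have e2 : (⟨toEnd u, hm⟩ : N) = Φ s := Subtype.ext e
      have e3 : lift Φ.symm ⇑u = (Φ.symm ⟨toEnd u, hm⟩ : Function.End ℕ) := lift_eq Φ.symm hm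
      rw [e2, Φ.symm_apply_apply] at e3
      rw [← e3, hRg]
      rfl
  have hcP : ContinuousModulo Φ h.SSg := by
    intro Y
    obtain ⟨F, hF⟩ := h.cont_mod Y
    refine ⟨F, fun s s' hss => ?_⟩
    obtain ⟨σ, hσ, h1⟩ := hF s.1 s'.1 (mem_monClosure.1 s.2) (mem_monClosure.1 s'.2) hss
    refine ⟨σ, hσ, fun y hy => ?_⟩
    have h2 := h1 y hy
    rw [lift_eq Φ s.2, lift_eq Φ s'.2] at h2
    exact h2
  have hcR : ContinuousModulo Φ.symm h.symm.SSg := by
    intro Y
    obtain ⟨F, hF⟩ := h.symm.cont_mod Y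
    refine ⟨F, fun s s' hss => ?_⟩
    obtain ⟨σ, hσ, h1⟩ := hF s.1 s'.1 (h.cl_of_N s.2) (h.cl_of_N s'.2) hss
    refine ⟨σ, hσ, fun y hy => ?_⟩
    have h2 := h1 y hy
    rw [lift_eq Φ.symm s.2, lift_eq Φ.symm s'.2] at h2
    exact h2
  have hdich : (@Continuous _ _ (monTop (monClosure Γ)) (monTop N) Φ ∧
      @Continuous _ _ (monTop N) (monTop (monClosure Γ)) Φ.symm) ∨
      Obstruction Γ h.symm.SSg := by
    by_cases hS : h.SSg = ⊥
    · left
      have hT' : h.symm.SSg = ⊥ := by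
        rw [eq_bot_iff]
        intro t ht
        have htΓ : t ∈ Γ := h.symm.SSg_le ht
        obtain ⟨d, hd, hPd⟩ := h.gP t htΓ
        have hdS := (h.mem_SS_iff htΓ hPd).1 ht
        rw [hS, Subgroup.mem_bot] at hdS
        rw [Subgroup.mem_bot]
        apply DFunLike.coe_injective
        rw [← h.Rd htΓ hPd, hdS]
        exact h.idR
      rw [hS] at hcP
      rw [hT'] at hcR
      exact ⟨continuous_of_bot hcP, continuous_of_bot hcR⟩
    · right
      obtain ⟨U, H, h1, h2, h3, h4, h5, h6, h7, h8⟩ := h.exists_disc hS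
      exact ⟨U, H, isOpenSubgroup_iff.2 h1, h2, h3, h4, h5, fun hH => h6 (isOpenSubgroup_iff.1 hH),
        h7, fun u hu n hn hun => h8 u hu n (mem_monClosure.1 hn) hun⟩
  refine ⟨?_, ⟨h.symm.SSg, h.SSg, compactNormal h.symm, compactNormal h, hcorr, hcP, hcR, hdich⟩,
    fun hT => ?_⟩
  · ext f
    exact ⟨fun hf => mem_monClosure.2 (h.cl_of_N hf), fun hf => cl_autGroup hN (mem_monClosure.1 hf)⟩
  · rcases hdich with h1 | h1
    · exact h1
    · exfalso
      rcases hT with hT | hT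
      · exact not_obstruction_bot (hT _ (compactNormal h.symm)) h1
      · obtain ⟨U, H, h1, _, h3, _, h5, h6, _, _⟩ := h1
        exact h6 (hT U H h1 h3 h5)

end Pool.Agent.Results.MP_c9589f_lc.ModuloCompact
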