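import Pool.Agent.Olig.GK
import Pool.Agent.Olig.IterU

/-!
# Groups for which non-reconstruction passes to the monoid closure

`ω` is `ℕ` with the discrete topology, `ω^ω` is `ℕ → ℕ` with the product topology.
-/

open Equiv Topology

namespace Pool.Agent.Results.MP_c9589f_lc.SmallIndexNormal

/-- The set of functions given by the elements of a permutation group. -/
def funSet (Γ : Subgroup (Perm ℕ)) : Set (ℕ → ℕ) := {f | ∃ g ∈ Γ, f = ⇑g}

/-- `Γ` is closed in `Sym(ω)` (topology of pointwise convergence). -/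
def ClosedInSym (Γ : Subgroup (Perm ℕ)) : Prop :=
  ∀ g : Perm ℕ, (⇑g : ℕ → ℕ) ∈ closure (funSet Γ) → g ∈ Γ

/-- `Γ` is oligomorphic: finitely many orbits on `k`-tuples for every `k`. -/
def Oligomorphic (Γ : Subgroup (Perm ℕ)) : Prop :=
  ∀ k : ℕ, Finite (MulAction.orbitRel.Quotient Γ (Fin k → ℕ))

/-- A permutation as a self-map of `ω`. -/
def toEnd (g : Perm ℕ) : Function.End ℕ := fun x => g x

/-- The topology of pointwise convergence on a permutation group. -/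
@[reducible] def grpTop (Γ : Subgroup (Perm ℕ)) : TopologicalSpace Γ :=
  TopologicalSpace.induced (fun g => (⇑(g : Perm ℕ) : ℕ → ℕ)) Pi.topologicalSpace

/-- The topology of pointwise convergence on a transformation monoid. -/
@[reducible] def monTop (M : Submonoid (Function.End ℕ)) : TopologicalSpace M :=
  TopologicalSpace.induced (fun f => ((f : Function.End ℕ) : ℕ → ℕ)) Pi.topologicalSpace

/-- Topologically isomorphic permutation groups. -/
def TopIsoGrp (Γ Δ : Subgroup (Perm ℕ)) : Prop :=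
  ∃ e : Γ ≃* Δ, @Continuous _ _ (grpTop Γ) (grpTop Δ) e ∧ @Continuous _ _ (grpTop Δ) (grpTop Γ) e.symm

/-- Topologically isomorphic transformation monoids. -/
def TopIsoMon (M N : Submonoid (Function.End ℕ)) : Prop :=
  ∃ e : M ≃* N, @Continuous _ _ (monTop M) (monTop N) e ∧ @Continuous _ _ (monTop N) (monTop M) e.symm

theorem mem_closure_iff_finset {S : Set (ℕ → ℕ)} {f : ℕ → ℕ} :
    f ∈ closure S ↔ ∀ F : Finset ℕ, ∃ h ∈ S, ∀ x ∈ F, h x = f x := by
  classical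
  constructor
  · intro hf F
    have ho : IsOpen {h : ℕ → ℕ | ∀ x ∈ F, h x = f x} := by
      have : {h : ℕ → ℕ | ∀ x ∈ F, h x = f x} = ⋂ x ∈ F, (fun h : ℕ → ℕ => h x) ⁻¹' {f x} := by
        ext h
        simp
      rw [this]
      exact isOpen_biInter_finset fun x _ => (isOpen_discrete _).preimage (continuous_apply x)
    obtain ⟨h, h1, h2⟩ := mem_closure_iff.1 hf _ ho (fun x _ => rfl)
    exact ⟨h, h2, h1⟩
  · intro hf
    rw [mem_closure_iff]
    intro o ho hfo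
    obtain ⟨I, u, hu, hsub⟩ := isOpen_pi_iff.1 ho f hfo
    obtain ⟨h, hS, hh⟩ := hf I
    refine ⟨h, hsub fun x hx => ?_, hS⟩
    rw [hh x hx]
    exact (hu x hx).2

theorem mem_closure_funSet {Γ : Subgroup (Perm ℕ)} {f : ℕ → ℕ} :
    f ∈ closure (funSet Γ) ↔ Olig.Cl Γ f := by
  rw [mem_closure_iff_finset]
  constructor
  · intro h F
    obtain ⟨_, ⟨g, hg, rfl⟩, h1⟩ := h F
    exact ⟨g, hg, h1⟩
  · intro h F
    obtain ⟨g, hg, h1⟩ := h F
    exact ⟨_, ⟨g, hg, rfl⟩, h1⟩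

/-- The monoid closure of `Γ` in `ω^ω`, a submonoid of the monoid of all maps `ω → ω`. -/
def monClosure (Γ : Subgroup (Perm ℕ)) : Submonoid (Function.End ℕ) where
  carrier := {f | (f : ℕ → ℕ) ∈ closure (funSet Γ)}
  one_mem' := show (⇑(1 : Perm ℕ) : ℕ → ℕ) ∈ closure (funSet Γ) from
    subset_closure ⟨1, Γ.one_mem, rfl⟩
  mul_mem' := fun {f h} hf hh => by
    have h1 := mem_closure_funSet.1 hf
    have h2 := mem_closure_funSet.1 hh
    exact mem_closure_funSet.2 (h1.comp h2)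

/-- The group of all permutations `g` such that `g` and its inverse lie in `M`. -/
def autGroup (M : Submonoid (Function.End ℕ)) : Subgroup (Perm ℕ) where
  carrier := {g | toEnd g ∈ M ∧ toEnd g⁻¹ ∈ M}
  one_mem' := ⟨M.one_mem, M.one_mem⟩
  mul_mem' := fun {a b} ha hb => ⟨show toEnd a * toEnd b ∈ M from M.mul_mem ha.1 hb.1, by
    rw [mul_inv_rev]; exact show toEnd b⁻¹ * toEnd a⁻¹ ∈ M from M.mul_mem hb.2 ha.2⟩
  inv_mem' := fun {a} ha => ⟨ha.2, by rw [inv_inv]; exact ha.1⟩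

/-- `M` is the endomorphism monoid of an `ω`-categorical structure with domain `ω`: `M` is closed
in `ω^ω` and the group of its invertible elements is oligomorphic. -/
def IsEndOmegaCategorical (M : Submonoid (Function.End ℕ)) : Prop :=
  IsClosed {f : ℕ → ℕ | (f : Function.End ℕ) ∈ M} ∧ Oligomorphic (autGroup M)

/-- The group `Γ` fails to have reconstruction. -/
def GrpFailsReconstruction (Γ : Subgroup (Perm ℕ)) : Prop :=
  ∃ Δ : Subgroup (Perm ℕ), ClosedInSym Δ ∧ Oligomorphic Δ ∧ Nonempty (Γ ≃* Δ) ∧ ¬ TopIsoGrp Γ Δ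

/-- The monoid `M` fails to have reconstruction. -/
def MonFailsReconstruction (M : Submonoid (Function.End ℕ)) : Prop :=
  ∃ N : Submonoid (Function.End ℕ), IsEndOmegaCategorical N ∧ Nonempty (M ≃* N) ∧ ¬ TopIsoMon M N

/-- `U` is an open subgroup of `Γ`. -/
def IsOpenSubgroup (Γ U : Subgroup (Perm ℕ)) : Prop :=
  U ≤ Γ ∧ IsOpen[grpTop Γ] {g : Γ | (g : Perm ℕ) ∈ U}

/-- `K` is a closed normal subgroup of `Γ`. -/
def ClosedNormal (Γ K : Subgroup (Perm ℕ)) : Prop :=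
  K ≤ Γ ∧ ClosedInSym K ∧ ∀ g ∈ Γ, ∀ k ∈ K, g * k * g⁻¹ ∈ K

/-- The isomorphism `φ : Γ → Δ` is locally finite: for every point `y` there is an open subgroup
`U` of `Γ` such that the orbit of `y` under `φ(U)` is finite. -/
def LocallyFinite {Γ Δ : Subgroup (Perm ℕ)} (φ : Γ ≃* Δ) : Prop :=
  ∀ y : ℕ, ∃ U : Subgroup (Perm ℕ), IsOpenSubgroup Γ U ∧
    {z : ℕ | ∃ g : Γ, (g : Perm ℕ) ∈ U ∧ (φ g : Perm ℕ) y = z}.Finite

/-- Every subgroup of `K` of countable index meets some open subgroup `U` of `K` in a subgroup of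
finite index of `U`. -/
def WeakSmallIndex (K : Subgroup (Perm ℕ)) : Prop :=
  ∀ H : Subgroup (Perm ℕ), H ≤ K → Countable (K ⧸ H.subgroupOf K) →
    ∃ U : Subgroup (Perm ℕ), IsOpenSubgroup K U ∧ Finite (U ⧸ H.subgroupOf U)

/-- All orbits of `N` on `ω` are finite (a closed group is compact if and only if it has this
property). -/
def FiniteOrbits (N : Set (Perm ℕ)) : Prop := ∀ x : ℕ, {y : ℕ | ∃ n ∈ N, n x = y}.Finite

/-- The centraliser of `K` modulo `N` in `Γ`. -/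
def centralizerMod (Γ K N : Subgroup (Perm ℕ)) : Set (Perm ℕ) :=
  {g | g ∈ Γ ∧ ∀ k ∈ K, g * k * g⁻¹ * k⁻¹ ∈ N}

/-- The centraliser of `K` modulo every compact normal subgroup `N ≤ K` of `Γ` is compact. -/
def CompactCentralizers (Γ K : Subgroup (Perm ℕ)) : Prop :=
  ∀ N : Subgroup (Perm ℕ), N ≤ K → ClosedNormal Γ N → FiniteOrbits (N : Set (Perm ℕ)) →
    FiniteOrbits (centralizerMod Γ K N)

/-- Every subgroup of `K` of countable index is open in `K`. -/
def SmallIndex (K : Subgroup (Perm ℕ)) : Prop :=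
  ∀ H : Subgroup (Perm ℕ), H ≤ K → Countable (K ⧸ H.subgroupOf K) → IsOpenSubgroup K H

/-- The quotient of `Γ` by `K` satisfies a nontrivial group law. -/
def SatisfiesLaw (Γ K : Subgroup (Perm ℕ)) : Prop :=
  ∃ w : FreeGroup ℕ, w ≠ 1 ∧ ∀ f : ℕ → Γ, ((FreeGroup.lift f w : Γ) : Perm ℕ) ∈ K

theorem closedG {Γ : Subgroup (Perm ℕ)} (h : ClosedInSym Γ) : Olig.ClosedG Γ :=
  fun g hg => h g (mem_closure_funSet.2 hg)

theorem oligo {Γ : Subgroup (Perm ℕ)} (h : Oligomorphic Γ) : Olig.Oligo Γ := by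
  classical
  intro k
  have := h k
  refine ⟨(Set.finite_range (fun q : MulAction.orbitRel.Quotient Γ (Fin k → ℕ) =>
    Quotient.out q)).toFinset, fun x => ?_⟩
  let q : MulAction.orbitRel.Quotient Γ (Fin k → ℕ) := Quotient.mk _ x
  refine ⟨Quotient.out q, (Set.Finite.mem_toFinset _).2 ⟨q, rfl⟩, ?_⟩
  have h1 : (MulAction.orbitRel Γ (Fin k → ℕ)).r x (Quotient.out q) :=
    Quotient.exact (Quotient.out_eq q).symm
  obtain ⟨g, hg⟩ := h1
  exact ⟨g, g.2, fun i => congrFun hg i⟩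

theorem mem_monClosure {Γ : Subgroup (Perm ℕ)} {f : Function.End ℕ} :
    f ∈ monClosure Γ ↔ Olig.Cl Γ f := mem_closure_funSet

theorem cl_autGroup {N : Submonoid (Function.End ℕ)} (hN : IsEndOmegaCategorical N)
    {f : Function.End ℕ} (hf : Olig.Cl (autGroup N) f) : f ∈ N := by
  have h1 : closure (funSet (autGroup N)) ⊆ {f : ℕ → ℕ | (f : Function.End ℕ) ∈ N} := by
    refine closure_minimal ?_ hN.1
    rintro _ ⟨g, hg, rfl⟩
    exact hg.1
  exact h1 (mem_closure_funSet.2 hf)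

theorem closedG_autGroup {N : Submonoid (Function.End ℕ)} (hN : IsEndOmegaCategorical N) :
    Olig.ClosedG (autGroup N) := by
  classical
  intro g hg
  refine ⟨cl_autGroup hN hg, cl_autGroup hN ?_⟩
  intro F
  obtain ⟨d, hd, h1⟩ := hg (F.image ⇑g⁻¹)
  refine ⟨d⁻¹, (autGroup N).inv_mem hd, fun x hx => ?_⟩
  rw [Perm.inv_eq_iff_eq, toEnd, h1 _ (Finset.mem_image_of_mem _ hx), Olig.ai]

/-- an element with an inverse is given by a permutation -/
theorem exists_perm {M : Submonoid (Function.End ℕ)} (a b : M) (h1 : a * b = 1) (h2 : b * a = 1) :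
    ∃ p ∈ autGroup M, toEnd p = (a : Function.End ℕ) := by
  let p : Perm ℕ := ⟨(a.1 : ℕ → ℕ), (b.1 : ℕ → ℕ),
    fun x => congrFun (congrArg Subtype.val h2) x, fun x => congrFun (congrArg Subtype.val h1) x⟩
  exact ⟨p, ⟨a.2, b.2⟩, rfl⟩

theorem autGroup_monClosure {Γ : Subgroup (Perm ℕ)} (hc : ClosedInSym Γ) :
    autGroup (monClosure Γ) = Γ := by
  ext g
  constructor
  · intro h
    exact hc g h.1
  · intro h
    exact ⟨mem_monClosure.2 (Olig.Cl.of_mem h), mem_monClosure.2 (Olig.Cl.of_mem (Γ.inv_mem h))⟩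

/-- units are mapped to units -/
theorem map_unit {M N : Submonoid (Function.End ℕ)} (Φ : M ≃* N) {g : Perm ℕ}
    (hg : g ∈ autGroup M) : ∃ p ∈ autGroup N, toEnd p = (Φ ⟨toEnd g, hg.1⟩ : Function.End ℕ) := by
  have e1 : (⟨toEnd g, hg.1⟩ : M) * ⟨toEnd g⁻¹, hg.2⟩ = 1 :=
    Subtype.ext (funext fun x => Olig.ai g x)
  have e2 : (⟨toEnd g⁻¹, hg.2⟩ : M) * ⟨toEnd g, hg.1⟩ = 1 :=
    Subtype.ext (funext fun x => Olig.ia g x)
  exact exists_perm (Φ ⟨toEnd g, hg.1⟩) (Φ ⟨toEnd g⁻¹, hg.2⟩)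
    (by rw [← map_mul, e1, map_one]) (by rw [← map_mul, e2, map_one])

open Classical in
/-- a map between submonoids as a map on functions -/
noncomputable def lift {M N : Submonoid (Function.End ℕ)} (Φ : M → N) (f : ℕ → ℕ) : ℕ → ℕ :=
  if hf : (f : Function.End ℕ) ∈ M then (Φ ⟨f, hf⟩ : Function.End ℕ) else f

theorem lift_eq {M N : Submonoid (Function.End ℕ)} (Φ : M → N) {f : ℕ → ℕ}
    (hf : (f : Function.End ℕ) ∈ M) : lift Φ f = (Φ ⟨f, hf⟩ : Function.End ℕ) := dif_pos hf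

theorem clIso {Γ : Subgroup (Perm ℕ)} (hc : ClosedInSym Γ) (ho : Oligomorphic Γ)
    {N : Submonoid (Function.End ℕ)} (hN : IsEndOmegaCategorical N) (Φ : monClosure Γ ≃* N) :
    Olig.ClIso Γ (autGroup N) (fun f => (f : Function.End ℕ) ∈ N) (lift Φ) (lift Φ.symm) where
  cG := closedG hc
  oG := oligo ho
  cD := closedG_autGroup hN
  oD := oligo hN.2
  clN := fun f hf => cl_autGroup hN hf
  compN := fun f f' hf hf' => N.mul_mem hf hf'
  memP := fun f hf => by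
    rw [lift_eq _ (mem_monClosure.2 hf)]
    exact (Φ _).2
  memR := fun f hf => by
    rw [lift_eq _ hf]
    exact mem_monClosure.1 (Φ.symm _).2
  mulP := fun f f' hf hf' => by
    rw [lift_eq _ (mem_monClosure.2 hf), lift_eq _ (mem_monClosure.2 hf'),
      lift_eq _ (mem_monClosure.2 (hf.comp hf'))]
    have h1 := map_mul Φ ⟨f, mem_monClosure.2 hf⟩ ⟨f', mem_monClosure.2 hf'⟩
    exact congrArg Subtype.val h1
  mulR := fun f f' hf hf' => by
    have hff : (f ∘ f' : Function.End ℕ) ∈ N := N.mul_mem hf hf'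
    rw [lift_eq _ hf, lift_eq _ hf', lift_eq _ hff]
    have h1 := map_mul Φ.symm ⟨f, hf⟩ ⟨f', hf'⟩
    exact congrArg Subtype.val h1
  RP := fun f hf => by
    rw [lift_eq Φ (mem_monClosure.2 hf), lift_eq Φ.symm (Φ _).2]
    exact congrArg Subtype.val (Φ.symm_apply_apply ⟨f, mem_monClosure.2 hf⟩)
  PR := fun f hf => by
    rw [lift_eq Φ.symm hf, lift_eq Φ (Φ.symm _).2]
    exact congrArg Subtype.val (Φ.apply_symm_apply ⟨f, hf⟩)
  idP := by
    rw [lift_eq Φ (mem_monClosure.2 (Olig.Cl.id' Γ))]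
    exact congrArg Subtype.val (map_one Φ)
  gP := fun g hg => by
    have hg' : g ∈ autGroup (monClosure Γ) := by rw [autGroup_monClosure hc]; exact hg
    obtain ⟨p, hp, e⟩ := map_unit Φ hg'
    exact ⟨p, hp, (lift_eq Φ hg'.1).trans e.symm⟩
  dR := fun d hd => by
    obtain ⟨p, hp, e⟩ := map_unit Φ.symm hd
    rw [autGroup_monClosure hc] at hp
    exact ⟨p, hp, (lift_eq Φ.symm hd.1).trans e.symm⟩

theorem isOpenSubgroup_iff {Γ U : Subgroup (Perm ℕ)} : IsOpenSubgroup Γ U ↔ Olig.OpenIn Γ U := by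
  constructor
  · rintro ⟨hle, ho⟩
    refine ⟨hle, ?_⟩
    obtain ⟨t, ht, hts⟩ := (@isOpen_induced_iff _ _ Pi.topologicalSpace _ _).1 ho
    have h1 : (⇑(1 : Perm ℕ) : ℕ → ℕ) ∈ t := by
      have h2 : (1 : Γ) ∈ (fun g : Γ => (⇑(g : Perm ℕ) : ℕ → ℕ)) ⁻¹' t := by
        rw [hts]
        exact U.one_mem
      exact h2
    obtain ⟨I, u, hu, hsub⟩ := isOpen_pi_iff.1 ht _ h1
    refine ⟨I, fun g hg h => ?_⟩
    have h3 : (⟨g, hg⟩ : Γ) ∈ (fun g : Γ => (⇑(g : Perm ℕ) : ℕ → ℕ)) ⁻¹' t := by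
      refine hsub fun x hx => ?_
      have h4 := (hu x hx).2
      change g x ∈ u x
      rw [h x hx]
      exact h4
    rw [hts] at h3
    exact h3
  · rintro ⟨hle, A, hA⟩
    refine ⟨hle, (@isOpen_induced_iff _ _ Pi.topologicalSpace _ _).2
      ⟨⋃ v ∈ U, {f : ℕ → ℕ | ∀ x ∈ A, f x = v x}, ?_, ?_⟩⟩
    · refine isOpen_biUnion fun v _ => ?_
      have : {f : ℕ → ℕ | ∀ x ∈ A, f x = v x} = ⋂ x ∈ A, (fun h : ℕ → ℕ => h x) ⁻¹' {v x} := by
        ext h
        simp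
      rw [this]
      exact isOpen_biInter_finset fun x _ => (isOpen_discrete _).preimage (continuous_apply x)
    · ext g
      simp only [Set.mem_preimage, Set.mem_iUnion, Set.mem_ofPred_eq]
      constructor
      · rintro ⟨v, hv, h⟩
        have h1 : v⁻¹ * (g : Perm ℕ) ∈ U := hA _ (Γ.mul_mem (Γ.inv_mem (hle hv)) g.2) (fun x hx => by
          rw [Perm.mul_apply, Perm.inv_eq_iff_eq]; exact (h x hx))
        have := U.mul_mem hv h1
        rwa [mul_inv_cancel_left] at this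
      · intro hg
        exact ⟨g, hg, fun _ _ => rfl⟩

theorem isEnd_monClosure {Δ : Subgroup (Perm ℕ)} (hc : ClosedInSym Δ) (ho : Oligomorphic Δ) :
    IsEndOmegaCategorical (monClosure Δ) :=
  ⟨(isClosed_closure : IsClosed (closure (funSet Δ))), by rw [autGroup_monClosure hc]; exact ho⟩

/-- the inclusion of `Γ` in its closure -/
def inc {Γ : Subgroup (Perm ℕ)} (g : Γ) : monClosure Γ :=
  ⟨toEnd g, mem_monClosure.2 (Olig.Cl.of_mem g.2)⟩

theorem inc_mul {Γ : Subgroup (Perm ℕ)} (g h : Γ) : inc (g * h) = inc g * inc h := rfl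

theorem inc_one {Γ : Subgroup (Perm ℕ)} : inc (1 : Γ) = 1 := rfl

theorem continuous_inc (Γ : Subgroup (Perm ℕ)) :
    @Continuous _ _ (grpTop Γ) (monTop (monClosure Γ)) inc := by
  refine continuous_induced_rng.2 ?_
  exact continuous_induced_dom

theorem val_continuous (M : Submonoid (Function.End ℕ)) :
    @Continuous _ _ (monTop M) Pi.topologicalSpace
      (fun f : M => ((f : Function.End ℕ) : ℕ → ℕ)) := continuous_induced_dom

/-- an isomorphism of the closures restricts to the groups -/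
theorem exists_restrict {Γ Δ : Subgroup (Perm ℕ)} (hc' : ClosedInSym Δ)
    (e : monClosure Γ ≃* monClosure Δ) (g : Γ) : ∃ d : Δ, inc d = e (inc g) := by
  have h1 : e (inc g) * e (inc g⁻¹) = 1 := by
    rw [← map_mul, ← inc_mul, mul_inv_cancel, inc_one, map_one]
  have h2 : e (inc g⁻¹) * e (inc g) = 1 := by
    rw [← map_mul, ← inc_mul, inv_mul_cancel, inc_one, map_one]
  let p : Perm ℕ := ⟨((e (inc g)).1 : ℕ → ℕ), ((e (inc g⁻¹)).1 : ℕ → ℕ),
    fun x => congrFun (congrArg Subtype.val h2) x, fun x => congrFun (congrArg Subtype.val h1) x⟩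
  have hp : p ∈ Δ := hc' p (e (inc g)).2
  exact ⟨⟨p, hp⟩, rfl⟩

theorem inc_injective {Γ : Subgroup (Perm ℕ)} : Function.Injective (inc : Γ → monClosure Γ) := by
  intro g h hgh
  exact Subtype.ext (DFunLike.coe_injective (congrArg Subtype.val hgh))

theorem topIsoGrp_of_topIsoMon {Γ Δ : Subgroup (Perm ℕ)} (hc : ClosedInSym Γ)
    (hc' : ClosedInSym Δ) (h : TopIsoMon (monClosure Γ) (monClosure Δ)) : TopIsoGrp Γ Δ := by
  obtain ⟨e, he, he'⟩ := h
  choose r hr using exists_restrict hc' e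
  choose r' hr' using exists_restrict hc e.symm
  refine ⟨{ toFun := r
            invFun := r'
            left_inv := fun g => inc_injective (by rw [hr', hr, e.symm_apply_apply])
            right_inv := fun g => inc_injective (by rw [hr, hr', e.apply_symm_apply])
            map_mul' := fun g h => inc_injective (by
              rw [hr, inc_mul, map_mul, inc_mul, hr, hr]) }, ?_, ?_⟩
  · refine continuous_induced_rng.2 ?_
    have h1 := @Continuous.comp _ _ _ (grpTop Γ) (monTop _) (monTop _) _ _ he (continuous_inc Γ)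
    have h2 := @Continuous.comp _ _ _ (grpTop Γ) (monTop _) Pi.topologicalSpace _ _
      (val_continuous (monClosure Δ)) h1
    refine (@continuous_congr _ _ (grpTop Γ) Pi.topologicalSpace _ _ (fun g => ?_)).1 h2
    exact (congrArg Subtype.val (hr g)).symm
  · refine continuous_induced_rng.2 ?_
    have h1 := @Continuous.comp _ _ _ (grpTop Δ) (monTop _) (monTop _) _ _ he' (continuous_inc Δ)
    have h2 := @Continuous.comp _ _ _ (grpTop Δ) (monTop _) Pi.topologicalSpace _ _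
      (val_continuous (monClosure Γ)) h1
    refine (@continuous_congr _ _ (grpTop Δ) Pi.topologicalSpace _ _ (fun g => ?_)).1 h2
    exact (congrArg Subtype.val (hr' g)).symm

/-- an isomorphism of the closures restricts to the groups -/
theorem mulEquiv_of_mon {Γ Δ : Subgroup (Perm ℕ)} (hc : ClosedInSym Γ)
    (hc' : ClosedInSym Δ) (e : monClosure Γ ≃* monClosure Δ) : Nonempty (Γ ≃* Δ) := by
  choose r hr using exists_restrict hc' e
  choose r' hr' using exists_restrict hc e.symm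
  exact ⟨{ toFun := r
           invFun := r'
           left_inv := fun g => inc_injective (by rw [hr', hr, e.symm_apply_apply])
           right_inv := fun g => inc_injective (by rw [hr, hr', e.apply_symm_apply])
           map_mul' := fun g h => inc_injective (by
             rw [hr, inc_mul, map_mul, inc_mul, hr, hr]) }⟩

/-- a continuous homomorphism between permutation groups, with finite sets -/
theorem exists_fin_of_continuous {Γ Δ : Subgroup (Perm ℕ)} (e : Γ ≃* Δ)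
    (he : @Continuous _ _ (grpTop Γ) (grpTop Δ) e) (y : ℕ) :
    ∃ F : Finset ℕ, ∀ g : Γ, (∀ x ∈ F, (g : Perm ℕ) x = x) → (e g : Perm ℕ) y = y := by
  have h1 : @Continuous _ _ (grpTop Γ) Pi.topologicalSpace
      (fun g : Γ => (⇑(e g : Perm ℕ) : ℕ → ℕ)) :=
    @Continuous.comp _ _ _ (grpTop Γ) (grpTop Δ) Pi.topologicalSpace _ _ continuous_induced_dom he
  have h2 : @Continuous _ _ (grpTop Γ) _ (fun g : Γ => (e g : Perm ℕ) y) :=
    @Continuous.comp _ _ _ (grpTop Γ) Pi.topologicalSpace _ _ _ (continuous_apply y) h1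
  have h3 := (continuous_def.1 h2) {y} (isOpen_discrete _)
  obtain ⟨t, ht, hts⟩ := (@isOpen_induced_iff _ _ Pi.topologicalSpace _ _).1 h3
  have h4 : (⇑(1 : Perm ℕ) : ℕ → ℕ) ∈ t := by
    have h5 : (1 : Γ) ∈ (fun g : Γ => (⇑(g : Perm ℕ) : ℕ → ℕ)) ⁻¹' t := by
      rw [hts]
      simp
    exact h5
  obtain ⟨I, u, hu, hsub⟩ := isOpen_pi_iff.1 ht _ h4
  refine ⟨I, fun g hg => ?_⟩
  have h5 : g ∈ (fun g : Γ => (⇑(g : Perm ℕ) : ℕ → ℕ)) ⁻¹' t := by
    refine hsub fun x hx => ?_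
    have h6 := (hu x hx).2
    change (g : Perm ℕ) x ∈ u x
    rw [hg x hx]
    exact h6
  rw [hts] at h5
  exact h5

theorem continuous_of_fin {Γ Δ : Subgroup (Perm ℕ)} (e : Γ ≃* Δ)
    (h : ∀ y, ∃ F : Finset ℕ, ∀ g : Γ, (∀ x ∈ F, (g : Perm ℕ) x = x) → (e g : Perm ℕ) y = y) :
    @Continuous _ _ (grpTop Γ) (grpTop Δ) e := by
  let _ : TopologicalSpace Γ := grpTop Γ
  refine continuous_induced_rng.2 ?_
  refine continuous_pi fun y => ?_
  rw [continuous_def]
  intro o _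
  obtain ⟨F, hF⟩ := h y
  rw [isOpen_iff_forall_mem_open]
  intro g0 hg0
  have h1 : IsOpen {f : ℕ → ℕ | ∀ x ∈ F, f x = (g0 : Perm ℕ) x} := by
    have : {f : ℕ → ℕ | ∀ x ∈ F, f x = (g0 : Perm ℕ) x} =
        ⋂ x ∈ F, (fun f : ℕ → ℕ => f x) ⁻¹' {(g0 : Perm ℕ) x} := by
      ext f
      simp
    rw [this]
    exact isOpen_biInter_finset fun x _ => (isOpen_discrete _).preimage (continuous_apply x)
  refine ⟨(fun g : Γ => (⇑(g : Perm ℕ) : ℕ → ℕ)) ⁻¹' {f | ∀ x ∈ F, f x = (g0 : Perm ℕ) x},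
    ?_, h1.preimage continuous_induced_dom, fun _ _ => rfl⟩
  intro g hg
  have h2 := hF (g0⁻¹ * g) (fun x hx => by
    have h3 : ((g0⁻¹ * g : Γ) : Perm ℕ) x = (g0 : Perm ℕ)⁻¹ ((g : Perm ℕ) x) := rfl
    have h4 : (g : Perm ℕ) x = (g0 : Perm ℕ) x := hg x hx
    rw [h3, h4, Olig.ia])
  rw [map_mul, map_inv] at h2
  have h5 : (((e g0)⁻¹ * e g : Δ) : Perm ℕ) y = (e g0 : Perm ℕ)⁻¹ ((e g : Perm ℕ) y) := rfl
  rw [h5, Perm.inv_eq_iff_eq] at h2
  change (e g : Perm ℕ) y ∈ o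
  rw [h2]
  exact hg0

/-- the continuous extension to the closures -/
theorem exists_cont_ext {Γ Δ : Subgroup (Perm ℕ)} (e : Γ ≃* Δ)
    (h : ∀ y, ∃ F : Finset ℕ, ∀ g : Γ, (∀ x ∈ F, (g : Perm ℕ) x = x) → (e g : Perm ℕ) y = y) :
    ∃ (E : (ℕ → ℕ) → (ℕ → ℕ)) (K : ℕ → Finset ℕ), ∀ (f : ℕ → ℕ) (g : Γ) (y : ℕ), Olig.Cl Γ f →
      (∀ x ∈ K y, (g : Perm ℕ) x = f x) → E f y = (e g : Perm ℕ) y := by
  classical
  choose K hK using h
  refine ⟨fun f y => if hf : ∃ g : Γ, ∀ x ∈ K y, (g : Perm ℕ) x = f x then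
    (e hf.choose : Perm ℕ) y else 0, K, fun f g y _ hg => ?_⟩
  have hf : ∃ g : Γ, ∀ x ∈ K y, (g : Perm ℕ) x = f x := ⟨g, hg⟩
  have e0 : (if hf : ∃ g : Γ, ∀ x ∈ K y, (g : Perm ℕ) x = f x then
    (e hf.choose : Perm ℕ) y else 0) = (e hf.choose : Perm ℕ) y := dif_pos hf
  change (if hf : ∃ g : Γ, ∀ x ∈ K y, (g : Perm ℕ) x = f x then
    (e hf.choose : Perm ℕ) y else 0) = _
  rw [e0]
  have h1 := hK y (g⁻¹ * hf.choose) (fun x hx => by
    have h3 : ((g⁻¹ * hf.choose : Γ) : Perm ℕ) x = (g : Perm ℕ)⁻¹ ((hf.choose : Perm ℕ) x) := rfl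
    rw [h3, hf.choose_spec x hx, Perm.inv_eq_iff_eq, hg x hx])
  rw [map_mul, map_inv] at h1
  have h5 : (((e g)⁻¹ * e hf.choose : Δ) : Perm ℕ) y =
    (e g : Perm ℕ)⁻¹ ((e hf.choose : Perm ℕ) y) := rfl
  rw [h5, Perm.inv_eq_iff_eq] at h1
  exact h1

/-- a topological isomorphism of the groups extends to the closures -/
theorem topIsoMon_of_topIsoGrp {Γ Δ : Subgroup (Perm ℕ)} (h : TopIsoGrp Γ Δ) :
    TopIsoMon (monClosure Γ) (monClosure Δ) := by
  classical
  obtain ⟨e, he, he'⟩ := h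
  obtain ⟨E, K, hE⟩ := exists_cont_ext e (exists_fin_of_continuous e he)
  obtain ⟨E', K', hE'⟩ := exists_cont_ext e.symm (exists_fin_of_continuous e.symm he')
  -- general facts
  have hcl : ∀ {Γ Δ : Subgroup (Perm ℕ)} (e : Γ ≃* Δ) (E : (ℕ → ℕ) → (ℕ → ℕ)) (K : ℕ → Finset ℕ),
      (∀ (f : ℕ → ℕ) (g : Γ) (y : ℕ), Olig.Cl Γ f → (∀ x ∈ K y, (g : Perm ℕ) x = f x) →
        E f y = (e g : Perm ℕ) y) → ∀ f, Olig.Cl Γ f → ∀ F : Finset ℕ, ∃ g : Γ,
          (∀ x ∈ F, (g : Perm ℕ) x = f x) ∧ ∀ y ∈ F, (e g : Perm ℕ) y = E f y := by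
    intro Γ Δ e E K hE f hf F
    obtain ⟨g, hg, h1⟩ := hf (F ∪ F.biUnion K)
    refine ⟨⟨g, hg⟩, fun x hx => h1 x (Finset.mem_union_left _ hx), fun y hy => ?_⟩
    exact (hE f ⟨g, hg⟩ y hf fun x hx => h1 x (Finset.mem_union_right _
      (Finset.mem_biUnion.2 ⟨y, hy, hx⟩))).symm
  have hclE : ∀ f, Olig.Cl Γ f → Olig.Cl Δ (E f) := by
    intro f hf F
    obtain ⟨g, _, h2⟩ := hcl e E K hE f hf F
    exact ⟨e g, (e g).2, h2⟩
  have hclE' : ∀ f, Olig.Cl Δ f → Olig.Cl Γ (E' f) := by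
    intro f hf F
    obtain ⟨g, _, h2⟩ := hcl e.symm E' K' hE' f hf F
    exact ⟨e.symm g, (e.symm g).2, h2⟩
  have hmul : ∀ f f', Olig.Cl Γ f → Olig.Cl Γ f' → E (f ∘ f') = E f ∘ E f' := by
    intro f f' hf hf'
    funext y
    obtain ⟨g', h1, h2⟩ := hcl e E K hE f' hf' (insert y (K y))
    have e2 := h2 y (Finset.mem_insert_self _ _)
    obtain ⟨g, h3, h4⟩ := hcl e E K hE f hf (insert (E f' y) ((K y).image f'))
    have e4 := h4 _ (Finset.mem_insert_self _ _)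
    have h5 := hE (f ∘ f') (g * g') y (hf.comp hf') (fun x hx => by
      have h6 : ((g * g' : Γ) : Perm ℕ) x = (g : Perm ℕ) ((g' : Perm ℕ) x) := rfl
      rw [h6, h1 x (Finset.mem_insert_of_mem hx),
        h3 _ (Finset.mem_insert_of_mem (Finset.mem_image_of_mem _ hx))]
      rfl)
    rw [h5, map_mul, Function.comp_apply, ← e4, ← e2]
    rfl
  have hinv : ∀ {Γ Δ : Subgroup (Perm ℕ)} (e : Γ ≃* Δ) (E E' : (ℕ → ℕ) → (ℕ → ℕ))
      (K K' : ℕ → Finset ℕ),
      (∀ (f : ℕ → ℕ) (g : Γ) (y : ℕ), Olig.Cl Γ f → (∀ x ∈ K y, (g : Perm ℕ) x = f x) →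
        E f y = (e g : Perm ℕ) y) →
      (∀ (f : ℕ → ℕ) (g : Δ) (y : ℕ), Olig.Cl Δ f → (∀ x ∈ K' y, (g : Perm ℕ) x = f x) →
        E' f y = (e.symm g : Perm ℕ) y) → (∀ f, Olig.Cl Γ f → Olig.Cl Δ (E f)) →
      ∀ f, Olig.Cl Γ f → E' (E f) = f := by
    intro Γ Δ e E E' K K' hE hE' hclE f hf
    funext x
    obtain ⟨g, hg, h1⟩ := hf (insert x ((K' x).biUnion K))
    have h2 : ∀ y ∈ K' x, (e ⟨g, hg⟩ : Perm ℕ) y = E f y := fun y hy =>
      (hE f ⟨g, hg⟩ y hf fun z hz => h1 z (Finset.mem_insert_of_mem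
        (Finset.mem_biUnion.2 ⟨y, hy, hz⟩))).symm
    rw [hE' (E f) (e ⟨g, hg⟩) x (hclE f hf) h2, e.symm_apply_apply]
    exact h1 x (Finset.mem_insert_self _ _)
  have hcont : ∀ {Γ Δ : Subgroup (Perm ℕ)} (e : Γ ≃* Δ) (E : (ℕ → ℕ) → (ℕ → ℕ))
      (K : ℕ → Finset ℕ),
      (∀ (f : ℕ → ℕ) (g : Γ) (y : ℕ), Olig.Cl Γ f → (∀ x ∈ K y, (g : Perm ℕ) x = f x) →
        E f y = (e g : Perm ℕ) y) →
      @Continuous (monClosure Γ) (ℕ → ℕ) (monTop (monClosure Γ)) Pi.topologicalSpace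
        (fun f => E f.1) := by
    intro Γ Δ e E K hE
    let _ : TopologicalSpace (monClosure Γ) := monTop (monClosure Γ)
    refine continuous_pi fun y => ?_
    rw [continuous_def]
    intro o _
    rw [isOpen_iff_forall_mem_open]
    intro s hs
    have h1 : IsOpen {f : ℕ → ℕ | ∀ x ∈ K y, f x = (s : Function.End ℕ) x} := by
      have : {f : ℕ → ℕ | ∀ x ∈ K y, f x = (s : Function.End ℕ) x} =
          ⋂ x ∈ K y, (fun f : ℕ → ℕ => f x) ⁻¹' {(s : Function.End ℕ) x} := by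
        ext f
        simp
      rw [this]
      exact isOpen_biInter_finset fun x _ => (isOpen_discrete _).preimage (continuous_apply x)
    refine ⟨(fun f : monClosure Γ => ((f : Function.End ℕ) : ℕ → ℕ)) ⁻¹'
      {f | ∀ x ∈ K y, f x = (s : Function.End ℕ) x}, ?_,
      h1.preimage (val_continuous (monClosure Γ)), fun _ _ => rfl⟩
    intro s' hs'
    obtain ⟨g, hg, h2⟩ := mem_monClosure.1 s.2 (K y)
    have e1 := hE s.1 ⟨g, hg⟩ y (mem_monClosure.1 s.2) h2
    have e2 := hE s'.1 ⟨g, hg⟩ y (mem_monClosure.1 s'.2) (fun x hx => by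
      have h3 : (s'.1 : ℕ → ℕ) x = (s.1 : ℕ → ℕ) x := hs' x hx
      rw [h3]
      exact h2 x hx)
    change E s'.1 y ∈ o
    rw [e2, ← e1]
    exact hs
  refine ⟨
    { toFun := fun f => ⟨E f.1, mem_monClosure.2 (hclE _ (mem_monClosure.1 f.2))⟩
      invFun := fun f => ⟨E' f.1, mem_monClosure.2 (hclE' _ (mem_monClosure.1 f.2))⟩
      left_inv := fun f => Subtype.ext (hinv e E E' K K' hE hE' hclE f.1 (mem_monClosure.1 f.2))
      right_inv := fun f => Subtype.ext (hinv e.symm E' E K' K hE' hE hclE' f.1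
        (mem_monClosure.1 f.2))
      map_mul' := fun f f' => Subtype.ext
        (hmul _ _ (mem_monClosure.1 f.2) (mem_monClosure.1 f'.2)) }, ?_, ?_⟩
  · exact continuous_induced_rng.2 (hcont e E K hE)
  · exact continuous_induced_rng.2 (hcont e.symm E' K' hE')

open Classical in
/-- an isomorphism as a map on permutations -/
noncomputable def pf {Γ Δ : Subgroup (Perm ℕ)} (φ : Γ ≃* Δ) (g : Perm ℕ) : Perm ℕ :=
  if h : g ∈ Γ then (φ ⟨g, h⟩ : Perm ℕ) else 1

theorem pf_eq {Γ Δ : Subgroup (Perm ℕ)} (φ : Γ ≃* Δ) {g : Perm ℕ} (h : g ∈ Γ) :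
    pf φ g = (φ ⟨g, h⟩ : Perm ℕ) := dif_pos h

theorem gi {Γ Δ : Subgroup (Perm ℕ)} (hc : ClosedInSym Γ) (ho : Oligomorphic Γ)
    (hc' : ClosedInSym Δ) (ho' : Oligomorphic Δ) (φ : Γ ≃* Δ) :
    Olig.GI Γ Δ (pf φ) (pf φ.symm) where
  cG := closedG hc
  oG := oligo ho
  cD := closedG hc'
  oD := oligo ho'
  pD := fun g hg => by rw [pf_eq φ hg]; exact (φ _).2
  rG := fun d hd => by rw [pf_eq φ.symm hd]; exact (φ.symm _).2
  pm := fun a ha b hb => by
    rw [pf_eq φ ha, pf_eq φ hb, pf_eq φ (Γ.mul_mem ha hb)]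
    exact congrArg Subtype.val (map_mul φ ⟨a, ha⟩ ⟨b, hb⟩)
  rp := fun g hg => by
    rw [pf_eq φ hg, pf_eq φ.symm (φ _).2]
    exact congrArg Subtype.val (φ.symm_apply_apply ⟨g, hg⟩)
  pr := fun d hd => by
    rw [pf_eq φ.symm hd, pf_eq φ (φ.symm _).2]
    exact congrArg Subtype.val (φ.apply_symm_apply ⟨d, hd⟩)

theorem ns {Γ K : Subgroup (Perm ℕ)} (hK : ClosedNormal Γ K) (hKo : Olig.Oligo K) :
    Olig.NS Γ K where
  le := hK.1
  cl := closedG hK.2.1
  nm := hK.2.2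
  ol := hKo

theorem oligoL {Γ Δ K : Subgroup (Perm ℕ)} (hc : ClosedInSym Γ) (ho : Oligomorphic Γ)
    (hc' : ClosedInSym Δ) (ho' : Oligomorphic Δ) (φ : Γ ≃* Δ) (hK : ClosedNormal Γ K)
    (hKo : Olig.Oligo K) : Olig.Oligo ((gi hc ho hc' ho' φ).L (ns hK hKo)) := by
  intro n
  obtain ⟨Z, hZ⟩ := Olig.oligo_image (closedG hc) hK.1 hK.2.2 (closedG hK.2.1) hKo (closedG hc')
    (oligo ho') φ n
  refine ⟨Z, fun y => ?_⟩
  obtain ⟨z, hz, k, hk, h1⟩ := hZ y
  refine ⟨z, hz, (φ k : Perm ℕ), ?_, h1⟩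
  have h2 := (gi hc ho hc' ho' φ).p_mem_L (ns hK hKo) hk
  rw [pf_eq φ k.2] at h2
  exact h2

theorem contK {Γ Δ K : Subgroup (Perm ℕ)} (hc : ClosedInSym Γ) (ho : Oligomorphic Γ)
    (hc' : ClosedInSym Δ) (ho' : Oligomorphic Δ) (φ : Γ ≃* Δ) (hK : ClosedNormal Γ K)
    (hKo : Olig.Oligo K) (hs : SmallIndex K) :
    (gi hc ho hc' ho' φ).Cont (ns hK hKo) := by
  intro y
  have h := gi hc ho hc' ho' φ
  let H : Subgroup (Perm ℕ) :=
    { carrier := {k | k ∈ K ∧ pf φ k y = y}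
      one_mem' := ⟨K.one_mem, by rw [h.p1]; rfl⟩
      mul_mem' := by
        rintro a b ⟨ha, h1⟩ ⟨hb, h2⟩
        refine ⟨K.mul_mem ha hb, ?_⟩
        rw [h.pm _ (hK.1 ha) _ (hK.1 hb), Perm.mul_apply, h2, h1]
      inv_mem' := by
        rintro a ⟨ha, h1⟩
        refine ⟨K.inv_mem ha, ?_⟩
        rw [h.pinv (hK.1 ha), Perm.inv_eq_iff_eq, h1] }
  have hHK : H ≤ K := fun k hk => hk.1
  have hcount : Countable (K ⧸ H.subgroupOf K) := by
    refine Function.Injective.countable (f := fun q : K ⧸ H.subgroupOf K =>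
      pf φ (Quotient.out q : K) y) ?_
    intro q q' hqq
    rw [← QuotientGroup.out_eq' q, ← QuotientGroup.out_eq' q']
    refine QuotientGroup.eq.2 ?_
    rw [Subgroup.mem_subgroupOf]
    refine ⟨(((Quotient.out q)⁻¹ * Quotient.out q' : K)).2, ?_⟩
    have e1 : (((Quotient.out q)⁻¹ * Quotient.out q' : K) : Perm ℕ) =
      (Quotient.out q : K).1⁻¹ * (Quotient.out q' : K).1 := rfl
    rw [e1, h.pm _ (Γ.inv_mem (hK.1 (Quotient.out q : K).2)) _ (hK.1 (Quotient.out q' : K).2),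
      h.pinv (hK.1 (Quotient.out q : K).2), Perm.mul_apply, Perm.inv_eq_iff_eq]
    exact hqq.symm
  obtain ⟨F, hF⟩ := (isOpenSubgroup_iff.1 (hs H hHK hcount)).op
  exact ⟨F, fun k hk hkF => (hF k hk hkF).2⟩

/-- The class of groups: `Γ` has a closed normal subgroup with the small index property whose
quotient is compact. -/
theorem ctrls {Γ Δ K : Subgroup (Perm ℕ)} (hc : ClosedInSym Γ) (ho : Oligomorphic Γ)
    (hc' : ClosedInSym Δ) (ho' : Oligomorphic Δ) (φ : Γ ≃* Δ) (hK : ClosedNormal Γ K)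
    (hKo : Olig.Oligo K) (hs : SmallIndex K) :
    Olig.Ctrl φ.toMonoidHom ∧ Olig.Ctrl φ.symm.toMonoidHom := by
  have h := gi hc ho hc' ho' φ
  have hcont := contK hc ho hc' ho' φ hK hKo hs
  constructor
  · intro y
    obtain ⟨F, hF⟩ := h.ctrl (ns hK hKo) hcont y
    refine ⟨Olig.stb Γ F, Olig.stb_open Γ F, fun g hg => ?_⟩
    have h1 := hF g hg
    rw [pf_eq φ g.2] at h1
    exact h1
  · intro y
    obtain ⟨F, hF⟩ := h.ctrl_inv (ns hK hKo) (oligoL hc ho hc' ho' φ hK hKo) hcont y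
    refine ⟨Olig.stb Δ F, Olig.stb_open Δ F, fun g hg => ?_⟩
    have h1 := hF g hg
    rw [pf_eq φ.symm g.2] at h1
    exact h1

/-- without finite normal subgroups every isomorphism is a homeomorphism -/
theorem homeo_of_no_finite {Γ Δ K : Subgroup (Perm ℕ)} (hc : ClosedInSym Γ)
    (ho : Oligomorphic Γ) (hc' : ClosedInSym Δ) (ho' : Oligomorphic Δ) (φ : Γ ≃* Δ)
    (hK : ClosedNormal Γ K) (hKo : Olig.Oligo K) (hs : SmallIndex K)
    (hfin : ∀ T : Subgroup (Perm ℕ), T ≤ Γ → (∀ g ∈ Γ, ∀ t ∈ T, g * t * g⁻¹ ∈ T) →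
      (T : Set (Perm ℕ)).Finite → T = ⊥) :
    @Continuous _ _ (grpTop Γ) (grpTop Δ) φ ∧ @Continuous _ _ (grpTop Δ) (grpTop Γ) φ.symm := by
  have h := gi hc ho hc' ho' φ
  have hcont := contK hc ho hc' ho' φ hK hKo hs
  have hL := oligoL hc ho hc' ho' φ hK hKo
  let T : Subgroup (Perm ℕ) :=
    { carrier := {g | g ∈ Γ ∧ pf φ g ∈ h.C (ns hK hKo)}
      one_mem' := ⟨Γ.one_mem, by rw [h.p1]; exact (h.C (ns hK hKo)).one_mem⟩
      mul_mem' := by
        rintro a b ⟨ha, h1⟩ ⟨hb, h2⟩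
        refine ⟨Γ.mul_mem ha hb, ?_⟩
        rw [h.pm _ ha _ hb]
        exact (h.C (ns hK hKo)).mul_mem h1 h2
      inv_mem' := by
        rintro a ⟨ha, h1⟩
        refine ⟨Γ.inv_mem ha, ?_⟩
        rw [h.pinv ha]
        exact (h.C (ns hK hKo)).inv_mem h1 }
  have hT : T = ⊥ := by
    refine hfin T (fun g hg => hg.1) (fun g hg t ht' => ?_) (h.finite_T (ns hK hKo) hL)
    refine ⟨Γ.mul_mem (Γ.mul_mem hg ht'.1) (Γ.inv_mem hg), ?_⟩
    rw [h.pm _ (Γ.mul_mem hg ht'.1) _ (Γ.inv_mem hg), h.pm _ hg _ ht'.1, h.pinv hg]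
    exact h.C_normal (ns hK hKo) (h.pD g hg) ht'.2
  have hT1 : ∀ g, g ∈ Γ → pf φ g ∈ h.C (ns hK hKo) → g = 1 := by
    intro g hg hgC
    have h1 : g ∈ T := ⟨hg, hgC⟩
    rw [hT, Subgroup.mem_bot] at h1
    exact h1
  have hC1 : ∀ c ∈ h.C (ns hK hKo), c = 1 := by
    intro c hcC
    have h1 : pf φ (pf φ.symm c) ∈ h.C (ns hK hKo) := by
      rw [h.pr c hcC.1]
      exact hcC
    have h2 := hT1 _ (h.rG c hcC.1) h1
    rw [← h.pr c hcC.1, h2, h.p1]
  constructor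
  · refine continuous_of_fin φ (fun y => ?_)
    obtain ⟨F, hF⟩ := h.contC (ns hK hKo) hL hcont {y}
    refine ⟨F, fun g hg => ?_⟩
    obtain ⟨c, hcC, hcy⟩ := hF g ⟨g.2, hg⟩
    have h1 := hcy y (by simp)
    rw [hC1 c hcC, pf_eq φ g.2] at h1
    exact h1
  · refine continuous_of_fin φ.symm (fun x => ?_)
    obtain ⟨Y, hY⟩ := h.open_map (ns hK hKo) hL hcont {x} (fun g hg hgC => hT1 g hg.1 hgC)
    refine ⟨Y, fun d hd => ?_⟩
    obtain ⟨g, hg, hgC⟩ := hY d ⟨d.2, hd⟩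
    have h1 := hC1 _ hgC
    have h2 : (d : Perm ℕ) = pf φ g := by
      have := mul_eq_one_iff_inv_eq.1 h1
      rw [inv_inv] at this
      exact this.symm
    have h3 : φ.symm d = ⟨g, hg.1⟩ := by
      rw [MulEquiv.symm_apply_eq]
      refine Subtype.ext ?_
      rw [h2, pf_eq φ hg.1]
    rw [h3]
    exact hg.2 x (by simp)

/-- If the monoid closure of a closed oligomorphic group fails to have reconstruction, so does the
group. -/
theorem grpFails_of_monFails {Γ : Subgroup (Perm ℕ)} (hc : ClosedInSym Γ) (ho : Oligomorphic Γ)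
    (h : MonFailsReconstruction (monClosure Γ)) : GrpFailsReconstruction Γ := by
  obtain ⟨N, hN, ⟨Φ⟩, hn⟩ := h
  have hcl := clIso hc ho hN Φ
  have hN2 : N = monClosure (autGroup N) := by
    ext f
    constructor
    · intro hf
      exact mem_monClosure.2 (hcl.cl_of_N hf)
    · intro hf
      exact cl_autGroup hN (mem_monClosure.1 hf)
  have hc' : ClosedInSym (autGroup N) := fun g hg =>
    closedG_autGroup hN g (mem_closure_funSet.1 hg)
  have hiso : Nonempty (monClosure Γ ≃* monClosure (autGroup N)) := by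
    rw [← hN2]
    exact ⟨Φ⟩
  obtain ⟨e⟩ := hiso
  refine ⟨autGroup N, hc', hN.2, mulEquiv_of_mon hc hc' e, fun h1 => hn ?_⟩
  have h2 := topIsoMon_of_topIsoGrp h1
  rw [← hN2] at h2
  exact h2

theorem locFin {Γ Δ : Subgroup (Perm ℕ)} {φ : Γ ≃* Δ} (h : LocallyFinite φ) :
    Olig.LocFin φ.toMonoidHom := by
  intro y
  obtain ⟨U, hU, hf⟩ := h y
  obtain ⟨A, hA⟩ := (isOpenSubgroup_iff.1 hU).op
  refine ⟨A, hf.toFinset, fun g hg => ?_⟩
  rw [Set.Finite.mem_toFinset]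
  exact ⟨g, hA g g.2 hg, rfl⟩

/-- the isomorphism of the closures -/
theorem monClosure_iso {Γ Δ : Subgroup (Perm ℕ)} (hc : ClosedInSym Γ) (ho : Oligomorphic Γ)
    (hc' : ClosedInSym Δ) (φ : Γ ≃* Δ) (h1 : LocallyFinite φ) :
    Nonempty (monClosure Γ ≃* monClosure Δ) := by
  obtain ⟨E, E', e1, e2, e3, e4, e5, _⟩ := Olig.exists_iso_lf (closedG hc) (oligo ho) (closedG hc')
    φ (locFin h1) (Olig.locFin_symm (closedG hc) (oligo ho) (closedG hc') φ (locFin h1))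
  exact ⟨
    { toFun := fun f => ⟨E f.1, mem_monClosure.2 (e1 _ (mem_monClosure.1 f.2))⟩
      invFun := fun f => ⟨E' f.1, mem_monClosure.2 (e2 _ (mem_monClosure.1 f.2))⟩
      left_inv := fun f => Subtype.ext (e4 _ (mem_monClosure.1 f.2))
      right_inv := fun f => Subtype.ext (e5 _ (mem_monClosure.1 f.2))
      map_mul' := fun f f' => Subtype.ext
        (e3 _ _ (mem_monClosure.1 f.2) (mem_monClosure.1 f'.2)) }⟩

theorem wsi {K : Subgroup (Perm ℕ)} (h : WeakSmallIndex K) : Olig.WSI K := by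
  rintro H hHK ⟨C, hC, hCK⟩
  have hcount : Countable (K ⧸ H.subgroupOf K) := by
    have : Countable C := hC.to_subtype
    choose c hcC hc using hCK
    refine Function.Injective.countable (f := fun q : K ⧸ H.subgroupOf K =>
      (⟨c (Quotient.out q : K).1 (Quotient.out q : K).2, hcC _ _⟩ : C)) ?_
    intro q q' hqq
    rw [← QuotientGroup.out_eq' q, ← QuotientGroup.out_eq' q']
    refine QuotientGroup.eq.2 ?_
    rw [Subgroup.mem_subgroupOf]
    have e1 := hc (Quotient.out q : K).1 (Quotient.out q : K).2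
    have e2 := hc (Quotient.out q' : K).1 (Quotient.out q' : K).2
    have e3 : c (Quotient.out q : K).1 (Quotient.out q : K).2 =
      c (Quotient.out q' : K).1 (Quotient.out q' : K).2 := congrArg Subtype.val hqq
    rw [← e3] at e2
    have e4 := H.mul_mem (H.inv_mem e1) e2
    have e5 : (((Quotient.out q)⁻¹ * Quotient.out q' : K) : Perm ℕ) =
      ((c (Quotient.out q : K).1 (Quotient.out q : K).2)⁻¹ * (Quotient.out q : K).1)⁻¹ *
        ((c (Quotient.out q : K).1 (Quotient.out q : K).2)⁻¹ * (Quotient.out q' : K).1) := by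
      rw [mul_inv_rev, inv_inv, mul_assoc, mul_inv_cancel_left]
      rfl
    rw [e5]
    exact e4
  obtain ⟨U, hU, hfin⟩ := h H hHK hcount
  obtain ⟨A, hA⟩ := (isOpenSubgroup_iff.1 hU).op
  refine ⟨A, Set.range (fun q : U ⧸ H.subgroupOf U => ((Quotient.out q : U) : Perm ℕ)),
    Set.finite_range _, fun k hk => ?_⟩
  have hkU : k ∈ U := hA k hk.1 hk.2
  let q : U ⧸ H.subgroupOf U := QuotientGroup.mk (⟨k, hkU⟩ : U)
  refine ⟨_, ⟨q, rfl⟩, ?_⟩
  have h1 : (QuotientGroup.mk (Quotient.out q) : U ⧸ H.subgroupOf U) =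
    QuotientGroup.mk (⟨k, hkU⟩ : U) := QuotientGroup.out_eq' q
  have h2 := QuotientGroup.eq.1 h1
  rw [Subgroup.mem_subgroupOf] at h2
  exact h2

theorem cc {Γ K : Subgroup (Perm ℕ)} (hKG : K ≤ Γ) (h : CompactCentralizers Γ K) :
    Olig.CC Γ K := by
  intro N hNK hNc hNn hNf x
  have h1 := h N hNK ⟨hNK.trans hKG, fun g hg => hNc g (mem_closure_funSet.1 hg), hNn⟩ hNf x
  refine h1.subset ?_
  rintro _ ⟨g, hg, hgk, rfl⟩
  exact ⟨g, ⟨hg, hgk⟩, rfl⟩

theorem locallyFinite_of_wsi {Γ Δ K : Subgroup (Perm ℕ)} (hc : ClosedInSym Γ)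
    (ho : Oligomorphic Γ) (hc' : ClosedInSym Δ) (ho' : Oligomorphic Δ) (φ : Γ ≃* Δ)
    (hK : ClosedNormal Γ K) (hs : WeakSmallIndex K) (hC : Olig.CC Γ K) : LocallyFinite φ := by
  intro y
  obtain ⟨F, Z, h⟩ := Olig.locFin_of_CC (closedG hc) (oligo ho) hK.1 hK.2.2 (closedG hK.2.1)
    (closedG hc') (oligo ho') φ (Olig.KFin_of_WSI hK.1 (wsi hs) φ.toMonoidHom) hC y
  refine ⟨Olig.stb Γ F, isOpenSubgroup_iff.2 (Olig.stb_open Γ F), Z.finite_toSet.subset ?_⟩
  rintro _ ⟨g, hg, rfl⟩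
  exact h g hg.2

theorem oligoK {Γ K : Subgroup (Perm ℕ)} (ho : Oligomorphic Γ) (hK : ClosedNormal Γ K)
    (h : Oligomorphic K ∨ SatisfiesLaw Γ K) : Olig.Oligo K := by
  rcases h with h | h
  · exact oligo h
  · exact Olig.oligo_of_tame (K := K) (Olig.tame_of_law h) Γ.subtype
      (fun g m hm => hK.2.2 g g.2 m hm) (fun _ hg => hg)
      (by rw [Subgroup.range_subtype]; exact oligo ho)

/-- Let `Γ` be a closed oligomorphic permutation group and `K` a closed normal subgroup of `Γ`.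
(1) Suppose that `K` has the weak small index property and that the centraliser of `K` modulo every
compact normal subgroup of `Γ` contained in `K` is compact; this is the case if `K` is oligomorphic,
that is, if `Γ / K` is compact, or if `Γ / K` satisfies a law. Then `Γ` fails to have
reconstruction if and only if its monoid closure does (question Q1), and every isomorphism from `Γ`
onto a closed oligomorphic group `Δ` is locally finite, so that the monoid closures are isomorphic.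
(2) If `K` is oligomorphic or `Γ / K` satisfies a law, and all subgroups of countable index of `K`
are open, then every isomorphism from `Γ` onto `Δ` extends to the monoid closures, and `Γ` has
reconstruction if it has no nontrivial finite normal subgroup. -/
theorem result (Γ : Subgroup (Perm ℕ)) (hc : ClosedInSym Γ) (ho : Oligomorphic Γ)
    (K : Subgroup (Perm ℕ)) (hK : ClosedNormal Γ K) :
    (WeakSmallIndex K → CompactCentralizers Γ K ∨ Oligomorphic K ∨ SatisfiesLaw Γ K →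
      (GrpFailsReconstruction Γ ↔ MonFailsReconstruction (monClosure Γ)) ∧
      (∀ (Δ : Subgroup (Perm ℕ)) (φ : Γ ≃* Δ), ClosedInSym Δ → Oligomorphic Δ →
        LocallyFinite φ ∧ Nonempty (monClosure Γ ≃* monClosure Δ))) ∧
    (SmallIndex K → Oligomorphic K ∨ SatisfiesLaw Γ K →
      (∀ (Δ : Subgroup (Perm ℕ)) (φ : Γ ≃* Δ), ClosedInSym Δ → Oligomorphic Δ →
        ∃ Φ : monClosure Γ ≃* monClosure Δ, ∀ g : Γ,
          (Φ (inc g) : Function.End ℕ) = toEnd (φ g : Perm ℕ)) ∧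
      ((∀ T : Subgroup (Perm ℕ), T ≤ Γ → (∀ g ∈ Γ, ∀ t ∈ T, g * t * g⁻¹ ∈ T) →
        (T : Set (Perm ℕ)).Finite → T = ⊥) → ¬ GrpFailsReconstruction Γ)) := by
  refine ⟨fun hs hC' => ?_, fun hs hKo' => ⟨?_, ?_⟩⟩
  · have hC : Olig.CC Γ K := by
      rcases hC' with h | h
      · exact cc hK.1 h
      · exact Olig.CC_of_oligo hK.2.2 hK.1 (oligoK ho hK h)
    have hlf : ∀ (Δ : Subgroup (Perm ℕ)) (φ : Γ ≃* Δ), ClosedInSym Δ → Oligomorphic Δ →
        LocallyFinite φ ∧ Nonempty (monClosure Γ ≃* monClosure Δ) := by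
      intro Δ φ hc' ho'
      have h1 := locallyFinite_of_wsi hc ho hc' ho' φ hK hs hC
      exact ⟨h1, monClosure_iso hc ho hc' φ h1⟩
    refine ⟨⟨?_, grpFails_of_monFails hc ho⟩, hlf⟩
    rintro ⟨Δ, hc', ho', ⟨φ⟩, hn⟩
    exact ⟨monClosure Δ, isEnd_monClosure hc' ho', (hlf Δ φ hc' ho').2, fun h =>
      hn (topIsoGrp_of_topIsoMon hc hc' h)⟩
  · intro Δ φ hc' ho'
    obtain ⟨h1, h2⟩ := ctrls hc ho hc' ho' φ hK (oligoK ho hK hKo') hs
    obtain ⟨E, E', e1, e2, e3, e4, e5, e6⟩ := Olig.exists_iso (closedG hc) (oligo ho)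
      (closedG hc') (oligo ho') φ h1 h2
    exact ⟨
      { toFun := fun f => ⟨E f.1, mem_monClosure.2 (e1 _ (mem_monClosure.1 f.2))⟩
        invFun := fun f => ⟨E' f.1, mem_monClosure.2 (e2 _ (mem_monClosure.1 f.2))⟩
        left_inv := fun f => Subtype.ext (e4 _ (mem_monClosure.1 f.2))
        right_inv := fun f => Subtype.ext (e5 _ (mem_monClosure.1 f.2))
        map_mul' := fun f f' => Subtype.ext
          (e3 _ _ (mem_monClosure.1 f.2) (mem_monClosure.1 f'.2)) }, fun g => e6 g⟩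
  · rintro hfin ⟨Δ, hc', ho', ⟨φ⟩, hn⟩
    exact hn ⟨φ, homeo_of_no_finite hc ho hc' ho' φ hK (oligoK ho hK hKo') hs hfin⟩

end Pool.Agent.Results.MP_c9589f_lc.SmallIndexNormal
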